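import Pool.Agent.H189.Q.RH

set_option autoImplicit false

namespace Pool.Agent.H189.Q

open Finset

/-- the weight of a sum of two squares -/
noncomputable def gw (p t : ℕ) : ℝ :=
  3 / 4 + p / 8 * ((if p ∣ t then 1 else 0) + (if p ^ 2 ∣ t then 1 else 0))

noncomputable def GW (P : Finset ℕ) (t : ℕ) : ℝ := ∏ p ∈ P, gw p t

lemma gw_nonneg (p t : ℕ) : 0 ≤ gw p t := by unfold gw; positivity

lemma GW_nonneg (P : Finset ℕ) (t : ℕ) : 0 ≤ GW P t := Finset.prod_nonneg fun _ _ => gw_nonneg _ _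

lemma dvd_sum_sq {p i n n' : ℕ} (hi : p ∣ i ^ 2 + 1) (h : n' ≡ i * n [MOD p]) :
    p ∣ n ^ 2 + n' ^ 2 := by
  have h1 : n ^ 2 + n' ^ 2 ≡ n ^ 2 + (i * n) ^ 2 [MOD p] := Nat.ModEq.add_left _ (h.pow 2)
  have h2 : p ∣ n ^ 2 + (i * n) ^ 2 := by
    have : n ^ 2 + (i * n) ^ 2 = (i ^ 2 + 1) * n ^ 2 := by ring
    rw [this]
    exact dvd_mul_of_dvd_left hi _
  exact (Nat.ModEq.dvd_iff h1 dvd_rfl).2 h2

lemma hw_le {p : ℕ} (hp : p.Prime) (h4 : p % 4 = 1) (n n' : ℕ) :
    hw p n n' ≤ gw p (n ^ 2 + n' ^ 2) := by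
  classical
  have hr := rt_spec hp h4
  have hp5 : 5 ≤ p := by
    have := hp.two_le
    omega
  have hr2 : p ∣ ((p - 1) * rt p) ^ 2 + 1 := by
    have e : ((p - 1) * rt p) ^ 2 + 1 ≡ rt p ^ 2 + 1 [MOD p] := by
      refine Nat.ModEq.add_right _ ?_
      rw [mul_pow]
      have : (p - 1) ^ 2 ≡ 1 [MOD p] := by
        obtain ⟨k, rfl⟩ : ∃ k, p = k + 1 := ⟨p - 1, by omega⟩
        rw [Nat.add_sub_cancel]
        have : k ^ 2 = (k - 1) * (k + 1) + 1 := by
          obtain ⟨l, rfl⟩ : ∃ l, k = l + 1 := ⟨k - 1, by omega⟩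
          rw [Nat.add_sub_cancel]
          ring
        rw [this]
        exact (Nat.modEq_iff_dvd' (by omega)).2 (by simp) |>.symm
      calc (p - 1) ^ 2 * rt p ^ 2 ≡ 1 * rt p ^ 2 [MOD p] := this.mul_right _
        _ = rt p ^ 2 := one_mul _
    exact (Nat.ModEq.dvd_iff e dvd_rfl).2 hr
  unfold hw gw
  have hp8 : (0 : ℝ) ≤ (p : ℝ) / 8 := by positivity
  have key : (if n' ≡ rt p * n [MOD p] then (1 : ℝ) else 0) +
      (if n' ≡ (p - 1) * rt p * n [MOD p] then (1 : ℝ) else 0) ≤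
      (if p ∣ n ^ 2 + n' ^ 2 then (1 : ℝ) else 0) + (if p ^ 2 ∣ n ^ 2 + n' ^ 2 then (1 : ℝ) else 0) := by
    by_cases h1 : n' ≡ rt p * n [MOD p]
    · rw [if_pos h1, if_pos (dvd_sum_sq hr h1)]
      by_cases h2 : n' ≡ (p - 1) * rt p * n [MOD p]
      · rw [if_pos h2]
        have h3 : rt p * n ≡ (p - 1) * rt p * n [MOD p] := h1.symm.trans h2
        have h4' : p ∣ 2 * (rt p * n) := by
          have h5 : rt p * n + rt p * n ≡ (p - 1) * rt p * n + rt p * n [MOD p] := h3.add_right _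
          have h6 : (p - 1) * rt p * n + rt p * n = p * (rt p * n) := by
            obtain ⟨k, rfl⟩ : ∃ k, p = k + 1 := ⟨p - 1, by omega⟩
            rw [Nat.add_sub_cancel]
            ring
          rw [h6] at h5
          have h7 : p ∣ rt p * n + rt p * n := (Nat.ModEq.dvd_iff h5 dvd_rfl).2 (dvd_mul_right _ _)
          rwa [← two_mul] at h7
        have hn : p ∣ n := by
          rcases (hp.dvd_mul).1 h4' with h | h
          · have := Nat.le_of_dvd (by norm_num) h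
            omega
          · rcases (hp.dvd_mul).1 h with h | h
            · have : p ∣ 1 := (Nat.dvd_add_right (dvd_pow h two_ne_zero)).1 hr
              exact absurd (Nat.dvd_one.1 this) hp.one_lt.ne'
            · exact h
        have hn' : p ∣ n' := (Nat.ModEq.dvd_iff h1 dvd_rfl).2 (dvd_mul_of_dvd_right hn _)
        rw [if_pos (dvd_add (pow_dvd_pow_of_dvd hn 2) (pow_dvd_pow_of_dvd hn' 2))]
      · rw [if_neg h2]
        gcongr
        split_ifs <;> norm_num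
    · rw [if_neg h1]
      by_cases h2 : n' ≡ (p - 1) * rt p * n [MOD p]
      · rw [if_pos h2, if_pos (dvd_sum_sq hr2 h2)]
        have : (0 : ℝ) ≤ (if p ^ 2 ∣ n ^ 2 + n' ^ 2 then (1 : ℝ) else 0) := by split_ifs <;> norm_num
        linarith
      · rw [if_neg h2]
        have : (0 : ℝ) ≤ (if p ^ 2 ∣ n ^ 2 + n' ^ 2 then (1 : ℝ) else 0) := by split_ifs <;> norm_num
        have : (0 : ℝ) ≤ (if p ∣ n ^ 2 + n' ^ 2 then (1 : ℝ) else 0) := by split_ifs <;> norm_num
        linarith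
  have := mul_le_mul_of_nonneg_left key hp8
  linarith

lemma HW_le (P : Finset ℕ) (hP : ∀ p ∈ P, p.Prime ∧ p % 4 = 1) (n n' : ℕ) :
    HW P n n' ≤ GW P (n ^ 2 + n' ^ 2) :=
  Finset.prod_le_prod (fun p _ => hw_nonneg p n n') fun p hp => hw_le (hP p hp).1 (hP p hp).2 n n'

lemma gw_mod {p t s : ℕ} (h : t ≡ s [MOD p ^ 2]) : gw p t = gw p s := by
  unfold gw
  have h1 : p ∣ t ↔ p ∣ s := Nat.ModEq.dvd_iff h (dvd_pow_self p two_ne_zero)
  have h2 : p ^ 2 ∣ t ↔ p ^ 2 ∣ s := Nat.ModEq.dvd_iff h dvd_rfl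
  simp only [h1, h2]

lemma sum_ite_dvd {p k : ℕ} (hp : 0 < p) : ∑ t ∈ range (p * k), (if p ∣ t then (1 : ℝ) else 0) = k := by
  induction k with
  | zero => simp
  | succ k ih =>
    rw [mul_add, mul_one, Finset.sum_range_add, ih]
    have : ∑ x ∈ range p, (if p ∣ p * k + x then (1 : ℝ) else 0) = 1 := by
      rw [Finset.sum_eq_single 0]
      · simp
      · intro b hb hb0
        rw [if_neg]
        intro h
        rw [Nat.dvd_add_right (dvd_mul_right _ _)] at h
        exact hb0 (Nat.eq_zero_of_dvd_of_lt h (Finset.mem_range.1 hb))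
      · intro h
        exact absurd (Finset.mem_range.2 hp) h
    rw [this]
    push_cast
    ring

lemma sum_gw {p : ℕ} (hp : 5 ≤ p) : ∑ t ∈ range (p ^ 2), gw p t ≤ 9 / 10 * (p : ℝ) ^ 2 := by
  have h1 : ∑ t ∈ range (p ^ 2), (if p ∣ t then (1 : ℝ) else 0) = p := by
    rw [pow_two]; exact sum_ite_dvd (by omega)
  have h2 : ∑ t ∈ range (p ^ 2), (if p ^ 2 ∣ t then (1 : ℝ) else 0) = 1 := by
    have := sum_ite_dvd (p := p ^ 2) (k := 1) (by positivity)
    rwa [mul_one, Nat.cast_one] at this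
  unfold gw
  rw [Finset.sum_add_distrib, ← Finset.mul_sum, Finset.sum_add_distrib, h1, h2]
  simp only [Finset.sum_const, Finset.card_range, nsmul_eq_mul]
  push_cast
  have : (5 : ℝ) ≤ p := by exact_mod_cast hp
  nlinarith

lemma sum_GW (P : Finset ℕ) (hP : ∀ p ∈ P, p.Prime ∧ p % 4 = 1) :
    ∑ t ∈ range (∏ p ∈ P, p ^ 2), GW P t ≤ (9 / 10) ^ P.card * ((∏ p ∈ P, p : ℕ) : ℝ) ^ 2 := by
  classical
  induction P using Finset.induction_on with
  | empty => simp [GW]
  | insert p P hpP ih =>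
    have ihP := ih fun q hq => hP q (Finset.mem_insert_of_mem hq)
    obtain ⟨hp, h4⟩ := hP p (Finset.mem_insert_self p P)
    have hp5 : 5 ≤ p := by
      have := hp.two_le
      omega
    have hcop : Nat.Coprime (p ^ 2) (∏ q ∈ P, q ^ 2) := by
      refine Nat.Coprime.prod_right fun q hq => Nat.Coprime.pow _ _ ?_
      rw [Nat.coprime_primes hp (hP q (Finset.mem_insert_of_mem hq)).1]
      rintro rfl
      exact hpP hq
    rw [Finset.prod_insert hpP, Finset.card_insert_of_notMem hpP]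
    have e : ∀ t ∈ range (p ^ 2 * ∏ q ∈ P, q ^ 2), GW (insert p P) t =
        gw p (t % p ^ 2) * GW P (t % ∏ q ∈ P, q ^ 2) := by
      intro t _
      unfold GW
      rw [Finset.prod_insert hpP]
      congr 1
      · exact gw_mod (Nat.mod_modEq _ _).symm
      · refine Finset.prod_congr rfl fun q hq => gw_mod ?_
        exact (Nat.mod_modEq _ _).symm.of_dvd (Finset.dvd_prod_of_mem (fun q => q ^ 2) hq)
    rw [Finset.sum_congr rfl e, sum_range_mul hcop (fun x y => gw p x * GW P y), ← Finset.sum_mul_sum,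
      Finset.prod_insert hpP]
    push_cast
    have h1 := sum_gw hp5
    have h2 : 0 ≤ ∑ t ∈ range (∏ q ∈ P, q ^ 2), GW P t := Finset.sum_nonneg fun _ _ => GW_nonneg _ _
    calc (∑ i ∈ range (p ^ 2), gw p i) * ∑ j ∈ range (∏ q ∈ P, q ^ 2), GW P j
        ≤ (9 / 10 * (p : ℝ) ^ 2) * ((9 / 10) ^ P.card * ((∏ p ∈ P, p : ℕ) : ℝ) ^ 2) :=
          mul_le_mul h1 ihP h2 (by positivity)
      _ = _ := by push_cast; ring

lemma sum_periodic {m : ℕ} (F : ℕ → ℝ) (hF : ∀ t, F (t + m) = F t) (k : ℕ) :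
    ∑ t ∈ range (k * m), F t = k * ∑ t ∈ range m, F t := by
  have hk : ∀ k t, F (k * m + t) = F t := by
    intro k
    induction k with
    | zero => intro t; simp
    | succ k ih =>
      intro t
      have : (k + 1) * m + t = (k * m + t) + m := by ring
      rw [this, hF, ih]
  induction k with
  | zero => simp
  | succ k ih =>
    rw [Nat.succ_mul, Finset.sum_range_add, ih]
    simp_rw [hk]
    push_cast
    ring

lemma GW_periodic (P : Finset ℕ) (t : ℕ) : GW P (t + ∏ p ∈ P, p ^ 2) = GW P t := by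
  unfold GW
  refine Finset.prod_congr rfl fun q hq => gw_mod ?_
  have : q ^ 2 ∣ ∏ p ∈ P, p ^ 2 := Finset.dvd_prod_of_mem (fun q => q ^ 2) hq
  have h : (t + ∏ p ∈ P, p ^ 2) ≡ t [MOD ∏ p ∈ P, p ^ 2] := by simp [Nat.ModEq]
  exact h.of_dvd this

end Pool.Agent.H189.Q
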