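import Pool.Agent.H189.Q.Main
import Pool.Agent.H397R2.NS4

set_option autoImplicit false

namespace Pool.Agent.H189.Q

open Finset Filter Real

/-- `log x / log log x` -/
noncomputable def psi (x : ℝ) : ℝ := log x / log (log x)

/-- the constant -/
noncomputable def cc : ℝ := 1 / 2000

lemma card_interval (T : Finset ℕ) (v E : ℝ) (hE : 0 ≤ E) (h : ∀ s ∈ T, |(s : ℝ) - v| ≤ E) :
    (T.card : ℝ) ≤ 2 * E + 1 := by
  classical
  have h1 : T.card ≤ (Finset.Icc ⌈v - E⌉ ⌊v + E⌋).card := by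
    refine Finset.card_le_card_of_injOn (fun s => (s : ℤ)) ?_ (fun a _ b _ hab => by simpa using hab)
    intro s hs
    have h2 := abs_le.1 (h s hs)
    simp only [coe_Icc, Set.mem_Icc]
    constructor
    · rw [Int.ceil_le]
      push_cast
      linarith [h2.1]
    · rw [Int.le_floor]
      push_cast
      linarith [h2.2]
  rw [Int.card_Icc] at h1
  have h2 : (T.card : ℝ) ≤ ((⌊v + E⌋ + 1 - ⌈v - E⌉).toNat : ℝ) := by exact_mod_cast h1
  refine h2.trans ?_
  have h3 : ((⌊v + E⌋ + 1 - ⌈v - E⌉).toNat : ℝ) = (((⌊v + E⌋ + 1 - ⌈v - E⌉).toNat : ℤ) : ℝ) := by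
    norm_cast
  rw [h3, Int.toNat_eq_max]
  push_cast
  refine max_le ?_ (by linarith)
  have h4 := Int.floor_le (v + E)
  have h5 := Int.le_ceil (v - E)
  linarith

lemma exists_primes : ∀ᶠ x : ℕ in atTop, ∃ P : Finset ℕ, (∀ p ∈ P, p.Prime ∧ p % 4 = 1) ∧
    psi x / 8 - 1 ≤ P.card ∧ ((∏ p ∈ P, p : ℕ) : ℝ) ≤ √x := by
  have hlogX : Tendsto (fun X : ℕ => log (X : ℝ)) atTop atTop :=
    tendsto_log_atTop.comp tendsto_natCast_atTop_atTop
  filter_upwards [hlogX.eventually Pool.Agent.H397R2.NS.prime_param,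
    hlogX.eventually (eventually_ge_atTop (3 : ℝ)), eventually_ge_atTop 1] with x hx hL hx1
  obtain ⟨y, hy1, hcard, hpow⟩ := hx
  set L := log (x : ℝ) with hLdef
  set M := ⌊L / (8 * log L)⌋₊ with hM
  have hlogL : 0 < log L := log_pos (by linarith)
  have hM1 : (M : ℝ) ≤ L / (8 * log L) := Nat.floor_le (by positivity)
  have hM2 : L / (8 * log L) - 1 ≤ M := by
    have := Nat.sub_one_lt_floor (L / (8 * log L))
    linarith
  have hMc : M ≤ (Pool.Agent.H313R2.S1 y).card := by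
    have : (M : ℝ) ≤ (Pool.Agent.H313R2.S1 y).card := hM1.trans hcard
    exact_mod_cast this
  obtain ⟨P, hPs, hPc⟩ := Finset.exists_subset_card_eq hMc
  refine ⟨P, fun p hp => (Pool.Agent.H313R2.mem_S1.1 (hPs hp)).2, ?_, ?_⟩
  · rw [hPc]
    have : psi x / 8 = L / (8 * log L) := by
      unfold psi
      rw [← hLdef, div_div, mul_comm (log L)]
    rw [this]
    exact hM2
  · have h1 : ∏ p ∈ P, p ≤ y ^ M := by
      rw [← hPc]
      exact Finset.prod_le_pow_card _ _ _ fun p hp => (Pool.Agent.H313R2.mem_S1.1 (hPs hp)).1.2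
    have h2 : ((∏ p ∈ P, p : ℕ) : ℝ) ≤ exp (L / 8) := le_trans (by exact_mod_cast h1) (hpow M hM1)
    refine h2.trans ?_
    have hx0 : (0 : ℝ) < x := by exact_mod_cast hx1
    have h3 : √(x : ℝ) = exp (L / 2) := by
      rw [hLdef, Real.sqrt_eq_rpow, Real.rpow_def_of_pos hx0]
      ring_nf
    rw [h3]
    exact exp_le_exp.2 (by linarith)

lemma psi_nat_tendsto : Tendsto (fun X : ℕ => psi (X : ℝ)) atTop atTop :=
  Pool.Agent.H397R2.NS.psi_tendsto.comp (tendsto_log_atTop.comp tendsto_natCast_atTop_atTop)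

theorem finite_version : ∀ᶠ x : ℕ in atTop, ∀ F : Finset (ℝ × ℝ),
    (F.card : ℝ) ≤ exp (cc * psi x) →
    (∀ q ∈ F, exp (-(cc * psi x)) ≤ q.1 ∧ |q.2| ≤ x) →
    ∀ S : Finset ℕ, (∀ s ∈ S, s ≤ x ∧ ∃ q ∈ F, ∃ n : ℕ,
      |(s : ℝ) - (q.1 * n ^ 2 + q.2)| ≤ exp (cc * psi x)) →
    √x * exp (-(cc * psi x)) ≤ S.card →
    ∃ t, exp (cc * psi x) ≤ (((S ×ˢ S).filter (fun z => z.1 + z.2 = t)).card : ℝ) := by
  classical
  have hEx : ∀ᶠ x : ℕ in atTop, exp (cc * psi x) ≤ x := by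
    have hlogX : Tendsto (fun X : ℕ => log (X : ℝ)) atTop atTop :=
      tendsto_log_atTop.comp tendsto_natCast_atTop_atTop
    filter_upwards [hlogX.eventually (eventually_ge_atTop (3 : ℝ)), eventually_ge_atTop 1]
      with x hx hx1
    have hx0 : (0 : ℝ) < x := by exact_mod_cast hx1
    rw [← le_log_iff_exp_le hx0]
    have h1 : 1 ≤ log (log (x : ℝ)) := by
      rw [le_log_iff_exp_le (by linarith)]
      have := exp_one_lt_d9
      linarith
    have h2 : psi x ≤ log (x : ℝ) := by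
      unfold psi
      exact div_le_self (by linarith) h1
    unfold cc
    have h3 : 0 ≤ log (x : ℝ) := by linarith
    linarith
  filter_upwards [exists_primes, hEx, psi_nat_tendsto.eventually (eventually_ge_atTop (4000 : ℝ)),
    eventually_ge_atTop 4] with x hprimes hEx hpsi hx4 F hFc hF S hS hScard
  obtain ⟨P, hP, hPc, hPx⟩ := hprimes
  by_contra hcon
  push Not at hcon
  set E : ℝ := exp (cc * psi x) with hE
  have hE1 : 1 ≤ E := by
    rw [hE]
    exact one_le_exp (by unfold cc; linarith)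
  have hE0 : 0 < E := by linarith
  have hEinv : exp (-(cc * psi x)) = E⁻¹ := by rw [exp_neg]
  rw [hEinv] at hScard
  have hx0 : (0 : ℝ) < x := by
    have : 0 < x := by omega
    exact_mod_cast this
  have hsx : 0 < √(x : ℝ) := Real.sqrt_pos.2 hx0
  -- pigeonhole
  obtain ⟨q, hqF, hq⟩ : ∃ q ∈ F, √(x : ℝ) / E ^ 2 ≤
      ((S.filter (fun s : ℕ => ∃ n : ℕ, |(s : ℝ) - (q.1 * n ^ 2 + q.2)| ≤ E)).card : ℝ) := by
    by_contra hc
    push Not at hc
    have hcov : S ⊆ F.biUnion (fun q => S.filter (fun s : ℕ => ∃ n : ℕ,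
        |(s : ℝ) - (q.1 * n ^ 2 + q.2)| ≤ E)) := by
      intro s hs
      obtain ⟨q, hq, h⟩ := (hS s hs).2
      exact Finset.mem_biUnion.2 ⟨q, hq, Finset.mem_filter.2 ⟨hs, h⟩⟩
    have h1 : (S.card : ℝ) ≤ ∑ q ∈ F, ((S.filter (fun s : ℕ => ∃ n : ℕ,
        |(s : ℝ) - (q.1 * n ^ 2 + q.2)| ≤ E)).card : ℝ) := by
      exact_mod_cast (Finset.card_le_card hcov).trans Finset.card_biUnion_le
    have hSpos : (0 : ℝ) < S.card := lt_of_lt_of_le (by positivity) hScard
    have hFne : F.Nonempty := by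
      by_contra hne
      rw [Finset.not_nonempty_iff_eq_empty] at hne
      rw [hne, Finset.sum_empty] at h1
      linarith
    have h2 := Finset.sum_lt_sum_of_nonempty hFne hc
    rw [Finset.sum_const, nsmul_eq_mul] at h2
    have h3 : (F.card : ℝ) * (√(x : ℝ) / E ^ 2) ≤ √x * E⁻¹ := by
      calc (F.card : ℝ) * (√(x : ℝ) / E ^ 2) ≤ E * (√(x : ℝ) / E ^ 2) := by gcongr
        _ = √x * E⁻¹ := by field_simp
    linarith
  obtain ⟨hα, hγ⟩ := hF q hqF
  rw [hEinv] at hα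
  set α := q.1 with hαd
  set γ := q.2 with hγd
  have hα0 : 0 < α := lt_of_lt_of_le (by positivity) hα
  set T := S.filter (fun s : ℕ => ∃ n : ℕ, |(s : ℝ) - (α * n ^ 2 + γ)| ≤ E) with hT
  have hTn : ∀ s : ℕ, ∃ n : ℕ, s ∈ T → |(s : ℝ) - (α * n ^ 2 + γ)| ≤ E := by
    intro s
    by_cases hs : s ∈ T
    · obtain ⟨n, hn⟩ := (Finset.mem_filter.1 hs).2
      exact ⟨n, fun _ => hn⟩
    · exact ⟨0, fun h => absurd h hs⟩
  choose n hn using hTn
  set W := T.image n with hW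
  have hWcard : (T.card : ℝ) ≤ 3 * E * W.card := by
    have h1 : (T.card : ℝ) = ∑ m ∈ W, ((T.filter (fun s => n s = m)).card : ℝ) := by
      rw [← Nat.cast_sum]
      congr 1
      exact Finset.card_eq_sum_card_fiberwise fun s hs => Finset.mem_coe.2 (Finset.mem_image_of_mem n hs)
    rw [h1]
    calc ∑ m ∈ W, ((T.filter (fun s => n s = m)).card : ℝ) ≤ ∑ m ∈ W, 3 * E := by
          refine Finset.sum_le_sum fun m _ => ?_
          have := card_interval (T.filter (fun s => n s = m)) (α * m ^ 2 + γ) E hE0.le (by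
            intro s hs
            rw [Finset.mem_filter] at hs
            have := hn s hs.1
            rwa [hs.2] at this)
          linarith
      _ = 3 * E * W.card := by rw [Finset.sum_const, nsmul_eq_mul]; ring
  set N := ⌊2 * √(x * E)⌋₊ + 1 with hN
  have hsqE : √(x * E) = √x * √E := Real.sqrt_mul hx0.le E
  have hsE1 : 1 ≤ √E := Real.one_le_sqrt.2 hE1
  have hsx2 : 2 ≤ √(x : ℝ) := by
    rw [show (2 : ℝ) = √4 by rw [show (4 : ℝ) = 2 ^ 2 by norm_num]; exact (Real.sqrt_sq (by norm_num)).symm]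
    exact Real.sqrt_le_sqrt (by exact_mod_cast hx4)
  have hN1 : (N : ℝ) ≤ 3 * √(x * E) := by
    rw [hN]
    push_cast
    have h1 := Nat.floor_le (a := 2 * √(x * E)) (by positivity)
    have h2 : 1 ≤ √(x * E) := by
      rw [hsqE]
      nlinarith
    linarith
  have hWN : ∀ m ∈ W, m < N := by
    intro m hm
    obtain ⟨s, hs, rfl⟩ := Finset.mem_image.1 hm
    have h1 := abs_le.1 (hn s hs)
    have h2 := (hS s (Finset.mem_filter.1 hs).1).1
    have h2' : (s : ℝ) ≤ x := by exact_mod_cast h2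
    have h3 := abs_le.1 hγ
    have h4 : α * (n s : ℝ) ^ 2 ≤ 3 * x := by linarith [h1.1, h3.1]
    have h5 : (n s : ℝ) ^ 2 ≤ 3 * (x * E) := by
      have h6 : E⁻¹ * (n s : ℝ) ^ 2 ≤ 3 * x := le_trans (mul_le_mul_of_nonneg_right hα (by positivity)) h4
      rw [inv_mul_le_iff₀ hE0] at h6
      linarith
    have h6 : (n s : ℝ) ≤ 2 * √(x * E) := by
      refine abs_le_of_sq_le_sq' ?_ (by positivity) |>.2
      rw [mul_pow, Real.sq_sqrt (by positivity)]
      nlinarith [mul_pos hx0 hE0]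
    exact Nat.lt_succ_of_le (Nat.le_floor h6)
  have hQN : ∏ p ∈ P, p ≤ N := by
    have h1 : ((∏ p ∈ P, p : ℕ) : ℝ) ≤ N := by
      refine hPx.trans ?_
      rw [hN]
      push_cast
      have h2 := Nat.lt_floor_add_one (2 * √(x * E))
      have h3 : √(x : ℝ) ≤ 2 * √(x * E) := by
        rw [hsqE]
        nlinarith
      linarith
    exact_mod_cast h1
  -- bounding the number of pairs with a given sum of squares
  have hsec : ∀ m : ℕ, ∃ s : ℕ, m ∈ W → s ∈ T ∧ n s = m := by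
    intro m
    by_cases hm : m ∈ W
    · obtain ⟨s, hs, h⟩ := Finset.mem_image.1 hm
      exact ⟨s, fun _ => ⟨hs, h⟩⟩
    · exact ⟨0, fun h => absurd h hm⟩
  choose σ hσ using hsec
  have hR : ∀ t, (sq2 W t : ℝ) ≤ 5 * E ^ 2 := by
    intro t
    unfold sq2
    set B := (W ×ˢ W).filter (fun z : ℕ × ℕ => z.1 ^ 2 + z.2 ^ 2 = t) with hB
    set U := B.image (fun z => σ z.1 + σ z.2) with hU
    have hUc : (U.card : ℝ) ≤ 5 * E := by
      have := card_interval U (α * t + 2 * γ) (2 * E) (by positivity) (by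
        intro u hu
        obtain ⟨z, hz, rfl⟩ := Finset.mem_image.1 hu
        rw [hB, Finset.mem_filter, Finset.mem_product] at hz
        obtain ⟨⟨hz1, hz2⟩, hz3⟩ := hz
        have a1 := hn _ (hσ _ hz1).1
        have a2 := hn _ (hσ _ hz2).1
        rw [(hσ _ hz1).2] at a1
        rw [(hσ _ hz2).2] at a2
        have a3 : (t : ℝ) = (z.1 : ℝ) ^ 2 + (z.2 : ℝ) ^ 2 := by rw [← hz3]; push_cast; ring
        rw [abs_le] at a1 a2 ⊢
        rw [a3]
        push_cast
        constructor <;> nlinarith [a1.1, a1.2, a2.1, a2.2])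
      linarith
    have h1 : (B.card : ℝ) = ∑ u ∈ U, ((B.filter (fun z => σ z.1 + σ z.2 = u)).card : ℝ) := by
      rw [← Nat.cast_sum]
      congr 1
      exact Finset.card_eq_sum_card_fiberwise fun z hz => Finset.mem_coe.2
        (Finset.mem_image_of_mem _ hz)
    rw [h1]
    calc ∑ u ∈ U, ((B.filter (fun z => σ z.1 + σ z.2 = u)).card : ℝ) ≤ ∑ u ∈ U, E := by
          refine Finset.sum_le_sum fun u _ => ?_
          refine le_trans ?_ (hcon u).le
          have : (B.filter (fun z => σ z.1 + σ z.2 = u)).card ≤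
              ((S ×ˢ S).filter (fun z => z.1 + z.2 = u)).card := by
            refine Finset.card_le_card_of_injOn (fun z => (σ z.1, σ z.2)) ?_ ?_
            · intro z hz
              simp only [coe_filter, Set.mem_setOf_eq] at hz ⊢
              rw [hB, Finset.mem_filter, Finset.mem_product] at hz
              obtain ⟨⟨⟨hz1, hz2⟩, _⟩, hz4⟩ := hz
              rw [Finset.mem_product]
              exact ⟨⟨(Finset.mem_filter.1 (hσ _ hz1).1).1, (Finset.mem_filter.1 (hσ _ hz2).1).1⟩, hz4⟩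
            · intro z hz w hw hzw
              simp only [coe_filter, Set.mem_setOf_eq] at hz hw
              rw [hB, Finset.mem_filter, Finset.mem_product] at hz hw
              simp only [Prod.mk.injEq] at hzw
              ext
              · rw [← (hσ _ hz.1.1.1).2, ← (hσ _ hw.1.1.1).2, hzw.1]
              · rw [← (hσ _ hz.1.1.2).2, ← (hσ _ hw.1.1.2).2, hzw.2]
          exact_mod_cast this
      _ = E * U.card := by rw [Finset.sum_const, nsmul_eq_mul]; ring
      _ ≤ E * (5 * E) := by gcongr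
      _ = 5 * E ^ 2 := by ring
  have hmain := count_main P hP N hQN W hWN (5 * E ^ 2) hR
  -- numerics
  have hWlow : √(x : ℝ) / (3 * E ^ 3) ≤ W.card := by
    rw [div_le_iff₀ (by positivity)]
    have h1 := hq.trans hWcard
    rw [div_le_iff₀ (by positivity)] at h1
    calc √(x : ℝ) ≤ 3 * E * W.card * E ^ 2 := h1
      _ = W.card * (3 * E ^ 3) := by ring
  have h1 : (√(x : ℝ) / (3 * E ^ 3)) ^ 4 ≤ (W.card : ℝ) ^ 4 := pow_le_pow_left₀ (by positivity) hWlow 4
  have h2 : (√(x : ℝ) / (3 * E ^ 3)) ^ 4 = (x : ℝ) ^ 2 / (81 * E ^ 12) := by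
    rw [div_pow, show √(x : ℝ) ^ 4 = (√(x : ℝ) ^ 2) ^ 2 by ring, Real.sq_sqrt hx0.le]
    ring
  have h3 : (N : ℝ) ^ 4 ≤ 81 * (x : ℝ) ^ 2 * E ^ 2 := by
    calc (N : ℝ) ^ 4 ≤ (3 * √(x * E)) ^ 4 := pow_le_pow_left₀ (by positivity) hN1 4
      _ = 81 * (√(x * E) ^ 2) ^ 2 := by ring
      _ = 81 * (x : ℝ) ^ 2 * E ^ 2 := by rw [Real.sq_sqrt (by positivity)]; ring
  set δ : ℝ := (9 / 10 : ℝ) ^ P.card with hδ
  have hδ0 : 0 < δ := by positivity
  have h4 : (x : ℝ) ^ 2 / (81 * E ^ 12) ≤ 12 * (81 * (x : ℝ) ^ 2 * E ^ 2) * (5 * E ^ 2) * δ := by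
    rw [← h2]
    refine (h1.trans hmain).trans ?_
    gcongr
  rw [div_le_iff₀ (by positivity)] at h4
  have h5 : 1 ≤ 393660 * E ^ 16 * δ := by
    have hx2 : (0 : ℝ) < (x : ℝ) ^ 2 := by positivity
    have : (x : ℝ) ^ 2 * 1 ≤ (x : ℝ) ^ 2 * (393660 * E ^ 16 * δ) := by
      calc (x : ℝ) ^ 2 * 1 ≤ 12 * (81 * (x : ℝ) ^ 2 * E ^ 2) * (5 * E ^ 2) * δ * (81 * E ^ 12) := by
            linarith
        _ = (x : ℝ) ^ 2 * (393660 * E ^ 16 * δ) := by ring
    exact le_of_mul_le_mul_left this hx2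
  have h6 : δ ≤ exp (-(P.card / 10 : ℝ)) := by
    have h7 : (9 / 10 : ℝ) ≤ exp (-(1 / 10)) := by
      have := add_one_le_exp (-(1 / 10) : ℝ)
      linarith
    calc δ ≤ exp (-(1 / 10)) ^ P.card := pow_le_pow_left₀ (by norm_num) h7 _
      _ = exp (-(P.card / 10 : ℝ)) := by
        rw [← exp_nat_mul]
        congr 1
        ring
  have h7 : E ^ 16 = exp (16 * (cc * psi x)) := by
    rw [hE, ← exp_nat_mul]
    norm_num
  have h8 : 393660 * E ^ 16 * δ ≤ exp (14 + 16 * (cc * psi x) + -(P.card / 10 : ℝ)) := by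
    rw [exp_add, exp_add, ← h7]
    have h9 : (393660 : ℝ) ≤ exp 14 := by
      have e1 := exp_one_gt_d9
      have e2 : exp (14 : ℝ) = exp 1 ^ 14 := by rw [← exp_nat_mul]; norm_num
      rw [e2]
      calc (393660 : ℝ) ≤ 2.7 ^ 14 := by norm_num
        _ ≤ exp 1 ^ 14 := pow_le_pow_left₀ (by norm_num) (by linarith) 14
    gcongr
  have h9 : exp (14 + 16 * (cc * psi x) + -(P.card / 10 : ℝ)) < 1 := by
    rw [exp_lt_one_iff]
    unfold cc
    nlinarith
  linarith

end Pool.Agent.H189.Q
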