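import Pool.Agent.H189.Q.Cnt

set_option autoImplicit false

namespace Pool.Agent.H189.Q

open Finset

lemma HW_mod (P : Finset ℕ) (n n' : ℕ) :
    HW P (n % ∏ p ∈ P, p) (n' % ∏ p ∈ P, p) = HW P n n' := by
  unfold HW
  refine Finset.prod_congr rfl fun q hq => ?_
  have hd : q ∣ ∏ p ∈ P, p := Finset.dvd_prod_of_mem _ hq
  exact hw_mod ((Nat.mod_modEq n _).of_dvd hd) ((Nat.mod_modEq n' _).of_dvd hd)

lemma class_card {S : Finset ℕ} {N Q : ℕ} (hQ : 0 < Q) (hS : ∀ n ∈ S, n < N) (w : ℕ) :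
    (S.filter (fun n => n % Q = w)).card ≤ N / Q + 1 := by
  have : (S.filter (fun n => n % Q = w)).card ≤ (range (N / Q + 1)).card := by
    refine Finset.card_le_card_of_injOn (fun n => n / Q) ?_ ?_
    · intro n hn
      simp only [coe_filter, Set.mem_setOf_eq] at hn
      simp only [coe_range, Set.mem_Iio]
      exact Nat.lt_succ_of_le (Nat.div_le_div_right (hS n hn.1).le)
    · intro n hn m hm h
      simp only [coe_filter, Set.mem_setOf_eq] at hn hm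
      simp only at h
      rw [← Nat.div_add_mod n Q, ← Nat.div_add_mod m Q, hn.2, hm.2, h]
  rwa [Finset.card_range] at this

/-- the number of pairs of elements of `S` with a given sum of squares -/
def sq2 (S : Finset ℕ) (t : ℕ) : ℕ := ((S ×ˢ S).filter (fun z => z.1 ^ 2 + z.2 ^ 2 = t)).card

lemma sum_class (P S : Finset ℕ) (hQ : 0 < ∏ p ∈ P, p) :
    ∑ c ∈ range (∏ p ∈ P, p), ∑ c' ∈ range (∏ p ∈ P, p), HW P c c' *
      (((S.filter (fun n => n % ∏ p ∈ P, p = c)).card : ℝ) *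
        ((S.filter (fun n => n % ∏ p ∈ P, p = c')).card : ℝ)) =
      ∑ n ∈ S, ∑ n' ∈ S, HW P n n' := by
  classical
  set Q := ∏ p ∈ P, p with hQdef
  have h1 : ∀ (F : ℕ → ℝ), ∑ c ∈ range Q, ((S.filter (fun n => n % Q = c)).card : ℝ) * F c =
      ∑ n ∈ S, F (n % Q) := by
    intro F
    have e : ∀ c ∈ range Q, ((S.filter (fun n => n % Q = c)).card : ℝ) * F c =
        ∑ n ∈ S with n % Q = c, F (n % Q) := by
      intro c _
      rw [Finset.sum_congr rfl (g := fun _ => F c)]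
      · rw [Finset.sum_const, nsmul_eq_mul]
      · intro n hn
        rw [(Finset.mem_filter.1 hn).2]
    rw [Finset.sum_congr rfl e]
    exact Finset.sum_fiberwise_of_maps_to (fun n _ => Finset.mem_range.2 (Nat.mod_lt _ hQ)) _
  have e2 : ∀ c ∈ range Q, ∑ c' ∈ range Q, HW P c c' *
      (((S.filter (fun n => n % Q = c)).card : ℝ) * ((S.filter (fun n => n % Q = c')).card : ℝ)) =
      ((S.filter (fun n => n % Q = c)).card : ℝ) * ∑ n' ∈ S, HW P c (n' % Q) := by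
    intro c _
    rw [← h1 (fun c' => HW P c c'), Finset.mul_sum]
    refine Finset.sum_congr rfl fun c' _ => ?_
    ring
  rw [Finset.sum_congr rfl e2, h1 (fun c => ∑ n' ∈ S, HW P c (n' % Q))]
  refine Finset.sum_congr rfl fun n _ => Finset.sum_congr rfl fun n' _ => ?_
  exact HW_mod P n n'

theorem count_main (P : Finset ℕ) (hP : ∀ p ∈ P, p.Prime ∧ p % 4 = 1) (N : ℕ)
    (hQN : ∏ p ∈ P, p ≤ N) (S : Finset ℕ) (hS : ∀ n ∈ S, n < N) (R : ℝ)
    (hR : ∀ t, (sq2 S t : ℝ) ≤ R) :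
    (S.card : ℝ) ^ 4 ≤ 12 * (N : ℝ) ^ 4 * R * (9 / 10) ^ P.card := by
  classical
  have hQ : 0 < ∏ p ∈ P, p := Finset.prod_pos fun q hq => (hP q hq).1.pos
  set Q := ∏ p ∈ P, p with hQdef
  have hN : 0 < N := lt_of_lt_of_le hQ hQN
  have hR0 : 0 ≤ R := le_trans (Nat.cast_nonneg _) (hR 0)
  have hQr : (0 : ℝ) < Q := by exact_mod_cast hQ
  have hNr : (0 : ℝ) < N := by exact_mod_cast hN
  have hQNr : (Q : ℝ) ≤ N := by exact_mod_cast hQN
  set f : ℕ → ℝ := fun w => ((S.filter (fun n => n % Q = w)).card : ℝ) with hf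
  set W : ℝ := 2 * N / Q with hW
  have hW0 : 0 < W := by positivity
  have hfW : ∀ w, f w ≤ W := by
    intro w
    have h1 : f w ≤ ((N / Q + 1 : ℕ) : ℝ) := by
      simp only [hf]
      exact_mod_cast class_card hQ hS w
    refine h1.trans ?_
    push_cast
    have h2 : ((N / Q : ℕ) : ℝ) ≤ (N : ℝ) / Q := Nat.cast_div_le
    have h3 : (1 : ℝ) ≤ (N : ℝ) / Q := (one_le_div hQr).2 hQNr
    rw [hW, mul_div_assoc]
    linarith
  have hf0 : ∀ w, 0 ≤ f w := fun w => Nat.cast_nonneg _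
  have hsum : ∑ w ∈ range Q, f w = S.card := by
    simp only [hf]
    rw [← Nat.cast_sum]
    congr 1
    exact (Finset.card_eq_sum_card_fiberwise fun n _ => Finset.mem_coe.2
      (Finset.mem_range.2 (Nat.mod_lt _ hQ))).symm
  set T := ∑ w ∈ range Q, √(f w) with hT
  have hT0 : 0 ≤ T := Finset.sum_nonneg fun _ _ => Real.sqrt_nonneg _
  have h1 : (S.card : ℝ) ≤ √W * T := by
    rw [← hsum, hT, Finset.mul_sum]
    refine Finset.sum_le_sum fun w _ => ?_
    calc f w = √(f w) * √(f w) := (Real.mul_self_sqrt (hf0 w)).symm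
      _ ≤ √W * √(f w) := by
        gcongr
        exact hfW w
  have h2 : (S.card : ℝ) ^ 4 ≤ W ^ 2 * (T ^ 2 * T ^ 2) := by
    have : (S.card : ℝ) ^ 4 ≤ (√W * T) ^ 4 := pow_le_pow_left₀ (Nat.cast_nonneg _) h1 4
    refine this.trans (le_of_eq ?_)
    rw [mul_pow]
    have : √W ^ 4 = W ^ 2 := by
      rw [show (4 : ℕ) = 2 * 2 from rfl, pow_mul, Real.sq_sqrt hW0.le]
    rw [this]
    ring
  have h3 := tens P hP f f hf0 hf0
  rw [← hQdef] at h3
  have h4 := sum_class P S hQ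
  rw [← hQdef] at h4
  have h4' : ∑ c ∈ range Q, ∑ c' ∈ range Q, HW P c c' * (f c * f c') =
      ∑ n ∈ S, ∑ n' ∈ S, HW P n n' := h4
  rw [h4', ← hT] at h3
  have h5 : ∑ n ∈ S, ∑ n' ∈ S, HW P n n' ≤ R * ∑ t ∈ range (2 * N ^ 2), GW P t := by
    calc ∑ n ∈ S, ∑ n' ∈ S, HW P n n' ≤ ∑ n ∈ S, ∑ n' ∈ S, GW P (n ^ 2 + n' ^ 2) :=
          Finset.sum_le_sum fun n _ => Finset.sum_le_sum fun n' _ => HW_le P hP n n'
      _ = ∑ z ∈ S ×ˢ S, GW P (z.1 ^ 2 + z.2 ^ 2) :=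
          (Finset.sum_product' S S fun n n' => GW P (n ^ 2 + n' ^ 2)).symm
      _ = ∑ t ∈ range (2 * N ^ 2), ∑ z ∈ S ×ˢ S with z.1 ^ 2 + z.2 ^ 2 = t,
            GW P (z.1 ^ 2 + z.2 ^ 2) := by
          symm
          refine Finset.sum_fiberwise_of_maps_to (fun z hz => ?_) _
          rw [Finset.mem_product] at hz
          have a1 := hS _ hz.1
          have a2 := hS _ hz.2
          rw [Finset.mem_range]
          have b1 : z.1 ^ 2 < N ^ 2 := Nat.pow_lt_pow_left a1 two_ne_zero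
          have b2 : z.2 ^ 2 < N ^ 2 := Nat.pow_lt_pow_left a2 two_ne_zero
          omega
      _ ≤ ∑ t ∈ range (2 * N ^ 2), R * GW P t := by
          refine Finset.sum_le_sum fun t _ => ?_
          rw [Finset.sum_congr rfl (g := fun _ => GW P t)
            (fun z hz => by rw [(Finset.mem_filter.1 hz).2]), Finset.sum_const, nsmul_eq_mul]
          exact mul_le_mul_of_nonneg_right (hR t) (GW_nonneg _ _)
      _ = R * ∑ t ∈ range (2 * N ^ 2), GW P t := by rw [Finset.mul_sum]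
  have hpQ : ∏ p ∈ P, p ^ 2 = Q ^ 2 := Finset.prod_pow _ _ _
  have h6 : ∑ t ∈ range (2 * N ^ 2), GW P t ≤ 3 * (N : ℝ) ^ 2 * (9 / 10) ^ P.card := by
    have hlt : 2 * N ^ 2 ≤ (2 * N ^ 2 / Q ^ 2 + 1) * Q ^ 2 := by
      have := Nat.lt_div_mul_add (a := 2 * N ^ 2) (b := Q ^ 2) (by positivity)
      rw [add_mul, one_mul]
      exact this.le
    calc ∑ t ∈ range (2 * N ^ 2), GW P t ≤ ∑ t ∈ range ((2 * N ^ 2 / Q ^ 2 + 1) * Q ^ 2), GW P t :=
          Finset.sum_le_sum_of_subset_of_nonneg (Finset.range_subset_range.2 hlt)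
            fun _ _ _ => GW_nonneg _ _
      _ = ((2 * N ^ 2 / Q ^ 2 + 1 : ℕ) : ℝ) * ∑ t ∈ range (Q ^ 2), GW P t := by
          refine sum_periodic _ (fun t => ?_) _
          rw [← hpQ]
          exact GW_periodic P t
      _ ≤ ((2 * N ^ 2 / Q ^ 2 + 1 : ℕ) : ℝ) * ((9 / 10) ^ P.card * (Q : ℝ) ^ 2) := by
          refine mul_le_mul_of_nonneg_left ?_ (Nat.cast_nonneg _)
          have := sum_GW P hP
          rwa [hpQ, ← hQdef] at this
      _ ≤ 3 * (N : ℝ) ^ 2 * (9 / 10) ^ P.card := by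
          have h7 : ((2 * N ^ 2 / Q ^ 2 + 1 : ℕ) : ℝ) * (Q : ℝ) ^ 2 ≤ 3 * (N : ℝ) ^ 2 := by
            have h8 : (2 * N ^ 2 / Q ^ 2 + 1) * Q ^ 2 ≤ 3 * N ^ 2 := by
              have h9 := Nat.div_mul_le_self (2 * N ^ 2) (Q ^ 2)
              have h10 : Q ^ 2 ≤ N ^ 2 := Nat.pow_le_pow_left hQN 2
              rw [add_mul, one_mul]
              omega
            exact_mod_cast h8
          have h11 : (0 : ℝ) ≤ (9 / 10 : ℝ) ^ P.card := by positivity
          nlinarith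
  have h12 : T ^ 2 * T ^ 2 ≤ (Q : ℝ) ^ 2 * (R * (3 * (N : ℝ) ^ 2 * (9 / 10) ^ P.card)) := by
    refine h3.trans ?_
    refine mul_le_mul_of_nonneg_left (h5.trans ?_) (by positivity)
    exact mul_le_mul_of_nonneg_left h6 hR0
  calc (S.card : ℝ) ^ 4 ≤ W ^ 2 * (T ^ 2 * T ^ 2) := h2
    _ ≤ W ^ 2 * ((Q : ℝ) ^ 2 * (R * (3 * (N : ℝ) ^ 2 * (9 / 10) ^ P.card))) := by gcongr
    _ = 12 * (N : ℝ) ^ 4 * R * (9 / 10) ^ P.card := by
      rw [hW]
      field_simp
      ring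

end Pool.Agent.H189.Q
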