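import Mathlib

/-!
# Reverse hypercontractivity on products of finite sets, two function form
-/

set_option autoImplicit false

namespace Pool.Agent.H189.Q

open Finset

/-- the base inequality -/
lemma base_ineq {X : Type*} (s : Finset X) (σ : X → X) (hσ : Set.BijOn σ s s) (f g : X → ℝ)
    (hf : ∀ c, 0 ≤ f c) (hg : ∀ c, 0 ≤ g c) :
    (∑ c ∈ s, √(f c)) ^ 2 * (∑ c ∈ s, √(g c)) ^ 2 ≤
      (s.card : ℝ) ^ 2 * (3 / 4 * ((∑ c ∈ s, f c) * ∑ c ∈ s, g c) +
        1 / 4 * (s.card * ∑ c ∈ s, f c * g (σ c))) := by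
  classical
  rcases s.eq_empty_or_nonempty with rfl | hne
  · simp
  have hn : (0 : ℝ) < s.card := by exact_mod_cast hne.card_pos
  set n : ℝ := (s.card : ℝ) with hndef
  have hperm : ∀ F : X → ℝ, ∑ c ∈ s, F (σ c) = ∑ c ∈ s, F c := by
    intro F
    refine Finset.sum_nbij σ (fun c hc => by exact_mod_cast hσ.mapsTo (by exact_mod_cast hc))
      hσ.injOn hσ.surjOn (fun _ _ => rfl)
  set a := ∑ c ∈ s, √(f c) with ha
  set b := ∑ c ∈ s, √(g c) with hb
  set A := ∑ c ∈ s, f c with hA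
  set B := ∑ c ∈ s, g c with hB
  set S := ∑ c ∈ s, √(f c) * √(g (σ c)) with hS
  have hb' : ∑ c ∈ s, √(g (σ c)) = b := hperm (fun c => √(g c))
  have hB' : ∑ c ∈ s, √(g (σ c)) ^ 2 = B := by
    rw [hperm (fun c => √(g c) ^ 2)]
    exact Finset.sum_congr rfl fun c _ => Real.sq_sqrt (hg c)
  have hA' : ∑ c ∈ s, √(f c) ^ 2 = A := Finset.sum_congr rfl fun c _ => Real.sq_sqrt (hf c)
  have h1 : S ^ 2 ≤ A * B := by
    have := Finset.sum_mul_sq_le_sq_mul_sq s (fun c => √(f c)) (fun c => √(g (σ c)))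
    rw [hA', hB'] at this
    exact this
  have h2 : (2 * (a * b / n) - S) ^ 2 ≤ A * B := by
    have := Finset.sum_mul_sq_le_sq_mul_sq s (fun c => 2 * a / n - √(f c)) (fun c => √(g (σ c)))
    have e1 : ∑ c ∈ s, (2 * a / n - √(f c)) * √(g (σ c)) = 2 * (a * b / n) - S := by
      simp_rw [sub_mul]
      rw [Finset.sum_sub_distrib, ← Finset.mul_sum, hb']
      ring
    have e2 : ∑ c ∈ s, (2 * a / n - √(f c)) ^ 2 = A := by
      simp_rw [sub_sq]
      rw [Finset.sum_add_distrib, Finset.sum_sub_distrib, hA', Finset.sum_const, nsmul_eq_mul,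
        ← Finset.mul_sum, ← ha, ← hndef]
      field_simp
      ring
    rw [e1, e2, hB'] at this
    exact this
  have h3 : S ^ 2 ≤ n * ∑ c ∈ s, f c * g (σ c) := by
    have := Finset.sum_mul_sq_le_sq_mul_sq s (fun c => √(f c) * √(g (σ c))) (fun _ => (1 : ℝ))
    simp only [mul_one, one_pow, Finset.sum_const, nsmul_eq_mul] at this
    have e : ∑ c ∈ s, (√(f c) * √(g (σ c))) ^ 2 = ∑ c ∈ s, f c * g (σ c) :=
      Finset.sum_congr rfl fun c _ => by rw [mul_pow, Real.sq_sqrt (hf c), Real.sq_sqrt (hg _)]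
    rw [e] at this
    linarith
  have h4 : (a * b / n) ^ 2 ≤ 3 / 4 * (A * B) + 1 / 4 * S ^ 2 := by
    nlinarith [sq_nonneg (S - (2 * (a * b / n) - S))]
  have h5 : a ^ 2 * b ^ 2 = n ^ 2 * (a * b / n) ^ 2 := by
    field_simp
  rw [h5]
  refine mul_le_mul_of_nonneg_left ?_ (by positivity)
  linarith

/-- summation over a product of coprime moduli -/
lemma sum_range_mul {M : Type*} [AddCommMonoid M] {a b : ℕ} (hab : a.Coprime b) (F : ℕ → ℕ → M) :
    ∑ t ∈ range (a * b), F (t % a) (t % b) = ∑ x ∈ range a, ∑ y ∈ range b, F x y := by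
  rw [← Finset.sum_product']
  rcases Nat.eq_zero_or_pos a with rfl | ha
  · simp
  rcases Nat.eq_zero_or_pos b with rfl | hb
  · simp
  refine Finset.sum_bij' (fun t _ => (t % a, t % b))
    (fun z _ => (Nat.chineseRemainder hab z.1 z.2 : ℕ)) ?_ ?_ ?_ ?_ ?_
  · intro t _
    simp [Nat.mod_lt _ ha, Nat.mod_lt _ hb]
  · intro z _
    rw [Finset.mem_range]
    exact Nat.chineseRemainder_lt_mul hab _ _ ha.ne' hb.ne'
  · intro t ht
    rw [Finset.mem_range] at ht
    have h1 := (Nat.chineseRemainder hab (t % a) (t % b)).2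
    have h2 : (Nat.chineseRemainder hab (t % a) (t % b) : ℕ) ≡ t [MOD a * b] :=
      (Nat.modEq_and_modEq_iff_modEq_mul hab).1
        ⟨h1.1.trans (Nat.mod_modEq _ _), h1.2.trans (Nat.mod_modEq _ _)⟩
    have h3 := Nat.chineseRemainder_lt_mul hab (t % a) (t % b) ha.ne' hb.ne'
    have h4 : (Nat.chineseRemainder hab (t % a) (t % b) : ℕ) % (a * b) = t % (a * b) := h2
    rwa [Nat.mod_eq_of_lt h3, Nat.mod_eq_of_lt ht] at h4
  · intro z hz
    rw [Finset.mem_product, Finset.mem_range, Finset.mem_range] at hz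
    have h1 := (Nat.chineseRemainder hab z.1 z.2).2
    ext
    · exact (Nat.mod_eq_of_modEq h1.1 hz.1)
    · exact (Nat.mod_eq_of_modEq h1.2 hz.2)
  · intro t _
    rfl

/-- a square root of `-1` modulo `p` (if there is one) -/
noncomputable def rt (p : ℕ) : ℕ := by
  classical exact if h : ∃ i : ℕ, p ∣ i ^ 2 + 1 then h.choose else 0

open Classical in
/-- the weight of a pair modulo `p` -/
noncomputable def hw (p n n' : ℕ) : ℝ :=
  3 / 4 + p / 8 * ((if n' ≡ rt p * n [MOD p] then 1 else 0) +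
    (if n' ≡ (p - 1) * rt p * n [MOD p] then 1 else 0))

/-- the product weight -/
noncomputable def HW (P : Finset ℕ) (n n' : ℕ) : ℝ := ∏ p ∈ P, hw p n n'

lemma hw_nonneg (p n n' : ℕ) : 0 ≤ hw p n n' := by
  unfold hw; positivity

lemma HW_nonneg (P : Finset ℕ) (n n' : ℕ) : 0 ≤ HW P n n' :=
  Finset.prod_nonneg fun p _ => hw_nonneg p n n'

lemma hw_mod {p m m' n n' : ℕ} (h : m ≡ n [MOD p]) (h' : m' ≡ n' [MOD p]) :
    hw p m m' = hw p n n' := by
  unfold hw
  have h1 : (m' ≡ rt p * m [MOD p]) ↔ (n' ≡ rt p * n [MOD p]) :=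
    ⟨fun e => h'.symm.trans (e.trans (Nat.ModEq.mul_left _ h)),
      fun e => h'.trans (e.trans (Nat.ModEq.mul_left _ h.symm))⟩
  have h2 : (m' ≡ (p - 1) * rt p * m [MOD p]) ↔ (n' ≡ (p - 1) * rt p * n [MOD p]) :=
    ⟨fun e => h'.symm.trans (e.trans (Nat.ModEq.mul_left _ h)),
      fun e => h'.trans (e.trans (Nat.ModEq.mul_left _ h.symm))⟩
  simp only [h1, h2]

lemma rt_spec {p : ℕ} (hp : p.Prime) (h4 : p % 4 = 1) : p ∣ rt p ^ 2 + 1 := by
  have hex : ∃ i : ℕ, p ∣ i ^ 2 + 1 := by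
    haveI := Fact.mk hp
    have h : IsSquare (-1 : ZMod p) := ZMod.exists_sq_eq_neg_one_iff.2 (by omega)
    obtain ⟨y, hy⟩ := h
    refine ⟨y.val, ?_⟩
    rw [← ZMod.natCast_eq_zero_iff]
    push_cast
    rw [ZMod.natCast_zmod_val, pow_two, ← hy]
    ring
  unfold rt
  rw [dif_pos hex]
  exact hex.choose_spec

lemma bijOn_mul {p i : ℕ} (hp : 0 < p) (hi : Nat.Coprime i p) :
    Set.BijOn (fun c => i * c % p) (range p) (range p) := by
  have hmap : Set.MapsTo (fun c => i * c % p) (range p) (range p) := fun c _ => by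
    simp only [coe_range, Set.mem_Iio]
    exact Nat.mod_lt _ hp
  have hinj : Set.InjOn (fun c => i * c % p) (range p : Set ℕ) := by
    intro c hc d hd hcd
    have h1 : i * c ≡ i * d [MOD p] := hcd
    have h2 : c ≡ d [MOD p] := Nat.ModEq.cancel_left_of_coprime (by rwa [Nat.coprime_comm] at hi) h1
    simp only [coe_range, Set.mem_Iio] at hc hd
    exact Nat.ModEq.eq_of_lt_of_lt h2 hc hd
  exact ⟨hmap, hinj, Finset.surjOn_of_injOn_of_card_le _ hmap hinj le_rfl⟩

lemma sum_ite_mod {p : ℕ} (hp : 0 < p) (k : ℕ) (g : ℕ → ℝ) :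
    ∑ c' ∈ range p, (open Classical in if c' ≡ k [MOD p] then (1 : ℝ) else 0) * g c' = g (k % p) := by
  classical
  rw [Finset.sum_eq_single (k % p)]
  · rw [if_pos (Nat.mod_modEq k p), one_mul]
  · intro b hb hne
    rw [Finset.mem_range] at hb
    rw [if_neg, zero_mul]
    intro h
    apply hne
    have : b % p = k % p := h
    rwa [Nat.mod_eq_of_lt hb] at this
  · intro h
    exact absurd (Finset.mem_range.2 (Nat.mod_lt _ hp)) h

lemma base_prime {p : ℕ} (hp : p.Prime) (h4 : p % 4 = 1) (f g : ℕ → ℝ) (hf : ∀ c, 0 ≤ f c)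
    (hg : ∀ c, 0 ≤ g c) :
    (∑ c ∈ range p, √(f c)) ^ 2 * (∑ c ∈ range p, √(g c)) ^ 2 ≤
      (p : ℝ) ^ 2 * ∑ c ∈ range p, ∑ c' ∈ range p, hw p c c' * (f c * g c') := by
  classical
  have hpos := hp.pos
  have hr := rt_spec hp h4
  have hcop1 : Nat.Coprime (rt p) p := by
    rw [Nat.coprime_comm, Nat.Prime.coprime_iff_not_dvd hp]
    intro h
    have : p ∣ 1 := (Nat.dvd_add_right (dvd_pow h two_ne_zero)).1 hr
    exact hp.one_lt.ne' (Nat.dvd_one.1 this)
  have hcop2 : Nat.Coprime ((p - 1) * rt p) p := by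
    refine Nat.Coprime.mul_left ?_ hcop1
    rw [Nat.coprime_comm]
    exact Nat.coprime_self_sub_right hp.one_le |>.2 (Nat.coprime_one_right p)
  have e : ∑ c ∈ range p, ∑ c' ∈ range p, hw p c c' * (f c * g c') =
      3 / 4 * ((∑ c ∈ range p, f c) * ∑ c ∈ range p, g c) +
      p / 8 * (∑ c ∈ range p, f c * g (rt p * c % p) +
        ∑ c ∈ range p, f c * g ((p - 1) * rt p * c % p)) := by
    rw [Finset.sum_mul_sum, Finset.mul_sum, ← Finset.sum_add_distrib, Finset.mul_sum,
      ← Finset.sum_add_distrib]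
    refine Finset.sum_congr rfl fun c _ => ?_
    have e1 := sum_ite_mod hpos (rt p * c) g
    have e2 := sum_ite_mod hpos ((p - 1) * rt p * c) g
    rw [← e1, ← e2]
    simp only [Finset.mul_sum, ← Finset.sum_add_distrib]
    refine Finset.sum_congr rfl fun c' _ => ?_
    unfold hw
    ring
  rw [e]
  have b1 := base_ineq (range p) (fun c => rt p * c % p) (bijOn_mul hpos hcop1) f g hf hg
  have b2 := base_ineq (range p) (fun c => (p - 1) * rt p * c % p) (bijOn_mul hpos hcop2) f g hf hg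
  rw [Finset.card_range] at b1 b2
  nlinarith [b1, b2]

theorem tens (P : Finset ℕ) (hP : ∀ p ∈ P, p.Prime ∧ p % 4 = 1) :
    ∀ f g : ℕ → ℝ, (∀ c, 0 ≤ f c) → (∀ c, 0 ≤ g c) →
    (∑ c ∈ range (∏ p ∈ P, p), √(f c)) ^ 2 * (∑ c ∈ range (∏ p ∈ P, p), √(g c)) ^ 2 ≤
      ((∏ p ∈ P, p : ℕ) : ℝ) ^ 2 * ∑ c ∈ range (∏ p ∈ P, p), ∑ c' ∈ range (∏ p ∈ P, p),
        HW P c c' * (f c * g c') := by
  classical
  induction P using Finset.induction_on with
  | empty =>
    intro f g hf hg
    simp [HW, Real.sq_sqrt (hf 0), Real.sq_sqrt (hg 0)]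
  | insert p P hpP ih =>
    intro f g hf hg
    have ihP := ih fun q hq => hP q (Finset.mem_insert_of_mem hq)
    obtain ⟨hp, h4⟩ := hP p (Finset.mem_insert_self p P)
    set Q := ∏ q ∈ P, q with hQ
    have hQ' : ∏ q ∈ insert p P, q = p * Q := Finset.prod_insert hpP
    have hcop : Nat.Coprime p Q := by
      rw [hQ]
      refine Nat.Coprime.prod_right fun q hq => ?_
      rw [Nat.coprime_primes hp (hP q (Finset.mem_insert_of_mem hq)).1]
      rintro rfl
      exact hpP hq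
    have hQpos : 0 < Q := Finset.prod_pos fun q hq => (hP q (Finset.mem_insert_of_mem hq)).1.pos
    rw [hQ']
    let F : ℕ → ℕ → ℝ := fun x y => f (Nat.chineseRemainder hcop x y)
    let G : ℕ → ℕ → ℝ := fun x y => g (Nat.chineseRemainder hcop x y)
    have hcrt : ∀ t ∈ range (p * Q), (Nat.chineseRemainder hcop (t % p) (t % Q) : ℕ) = t := by
      intro t ht
      rw [Finset.mem_range] at ht
      have h1 := (Nat.chineseRemainder hcop (t % p) (t % Q)).2
      have h2 : (Nat.chineseRemainder hcop (t % p) (t % Q) : ℕ) ≡ t [MOD p * Q] :=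
        (Nat.modEq_and_modEq_iff_modEq_mul hcop).1
          ⟨h1.1.trans (Nat.mod_modEq _ _), h1.2.trans (Nat.mod_modEq _ _)⟩
      have h3 := Nat.chineseRemainder_lt_mul hcop (t % p) (t % Q) hp.pos.ne' hQpos.ne'
      have h4 : (Nat.chineseRemainder hcop (t % p) (t % Q) : ℕ) % (p * Q) = t % (p * Q) := h2
      rwa [Nat.mod_eq_of_lt h3, Nat.mod_eq_of_lt ht] at h4
    have sf : ∑ c ∈ range (p * Q), √(f c) = ∑ x ∈ range p, ∑ y ∈ range Q, √(F x y) := by
      rw [← sum_range_mul hcop (fun x y => √(F x y))]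
      refine Finset.sum_congr rfl fun t ht => ?_
      simp only [F]
      rw [hcrt t ht]
    have sg : ∑ c ∈ range (p * Q), √(g c) = ∑ x ∈ range p, ∑ y ∈ range Q, √(G x y) := by
      rw [← sum_range_mul hcop (fun x y => √(G x y))]
      refine Finset.sum_congr rfl fun t ht => ?_
      simp only [G]
      rw [hcrt t ht]
    have sH : ∑ c ∈ range (p * Q), ∑ c' ∈ range (p * Q), HW (insert p P) c c' * (f c * g c') =
        ∑ x ∈ range p, ∑ x' ∈ range p, hw p x x' *
          ∑ y ∈ range Q, ∑ y' ∈ range Q, HW P y y' * (F x y * G x' y') := by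
      have e1 : ∀ c ∈ range (p * Q), ∑ c' ∈ range (p * Q), HW (insert p P) c c' * (f c * g c') =
          ∑ x' ∈ range p, ∑ y' ∈ range Q, hw p (c % p) x' * (HW P (c % Q) y' *
            (F (c % p) (c % Q) * G x' y')) := by
        intro c hc
        rw [← sum_range_mul hcop (fun x' y' => hw p (c % p) x' * (HW P (c % Q) y' *
            (F (c % p) (c % Q) * G x' y')))]
        refine Finset.sum_congr rfl fun c' hc' => ?_
        simp only [F, G]
        rw [hcrt c hc, hcrt c' hc']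
        have h1 : HW (insert p P) c c' = hw p (c % p) (c' % p) * HW P (c % Q) (c' % Q) := by
          unfold HW
          rw [Finset.prod_insert hpP]
          congr 1
          · exact hw_mod (Nat.mod_modEq c p).symm (Nat.mod_modEq c' p).symm
          · refine Finset.prod_congr rfl fun q hq => ?_
            have hd : q ∣ Q := Finset.dvd_prod_of_mem _ hq
            exact hw_mod ((Nat.mod_modEq c Q).symm.of_dvd hd) ((Nat.mod_modEq c' Q).symm.of_dvd hd)
        rw [h1]
        ring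
      rw [Finset.sum_congr rfl e1, sum_range_mul hcop (fun x y => ∑ x' ∈ range p, ∑ y' ∈ range Q,
        hw p x x' * (HW P y y' * (F x y * G x' y')))]
      refine Finset.sum_congr rfl fun x _ => ?_
      rw [Finset.sum_comm]
      refine Finset.sum_congr rfl fun x' _ => ?_
      rw [Finset.mul_sum]
      refine Finset.sum_congr rfl fun y _ => ?_
      rw [Finset.mul_sum]
    have bp := base_prime hp h4 (fun x => (∑ y ∈ range Q, √(F x y)) ^ 2)
      (fun x => (∑ y ∈ range Q, √(G x y)) ^ 2) (fun _ => sq_nonneg _) (fun _ => sq_nonneg _)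
    have sq1 : ∀ x, √((∑ y ∈ range Q, √(F x y)) ^ 2) = ∑ y ∈ range Q, √(F x y) := fun x =>
      Real.sqrt_sq (Finset.sum_nonneg fun _ _ => Real.sqrt_nonneg _)
    have sq2 : ∀ x, √((∑ y ∈ range Q, √(G x y)) ^ 2) = ∑ y ∈ range Q, √(G x y) := fun x =>
      Real.sqrt_sq (Finset.sum_nonneg fun _ _ => Real.sqrt_nonneg _)
    simp only [sq1, sq2] at bp
    rw [sf, sg, sH]
    refine bp.trans ?_
    push_cast
    rw [mul_pow, mul_assoc]
    refine mul_le_mul_of_nonneg_left ?_ (by positivity)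
    rw [Finset.mul_sum]
    refine Finset.sum_le_sum fun x _ => ?_
    rw [Finset.mul_sum]
    refine Finset.sum_le_sum fun x' _ => ?_
    have := ihP (fun y => F x y) (fun y => G x' y) (fun _ => hf _) (fun _ => hg _)
    calc hw p x x' * ((∑ y ∈ range Q, √(F x y)) ^ 2 * (∑ y ∈ range Q, √(G x' y)) ^ 2)
        ≤ hw p x x' * ((Q : ℝ) ^ 2 * ∑ y ∈ range Q, ∑ y' ∈ range Q, HW P y y' * (F x y * G x' y')) :=
          mul_le_mul_of_nonneg_left this (hw_nonneg _ _ _)
      _ = _ := by ring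

end Pool.Agent.H189.Q
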