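import Pool.Agent.TH854.ET.P7

/-!
# The logarithmic mean of the representation function of a basis with bounded representation function
-/

set_option autoImplicit false

open Finset

namespace Pool.Agent.H189.Q

open Pool.Agent.W247.ET Pool.Agent.W962.ET Pool.Agent.TH854.ET

/-- logarithmic mean of `r_A` up to `N` -/
noncomputable def lmean (A : Set ℕ) (N : ℕ) : ℝ := (∑ n ∈ Icc 1 N, (r A n : ℝ) / n) / Real.log N

lemma basis_mean (A : Set ℕ) (n₀ : ℕ) (h0 : ∀ n ≥ n₀, 1 ≤ r A n) :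
    ∀ x : ℕ, 3 * n₀ ≤ x → 3 / 5 * (x : ℝ) ≤ ∑ n ∈ Icc 1 x, (r A n : ℝ) := by
  classical
  intro x hx
  have h1 : ∑ n ∈ Icc 1 x, (1 : ℝ) ≤ ∑ n ∈ Icc 1 x, (r A n : ℝ) + n₀ := by
    have h2 : ∑ n ∈ Icc 1 x, (1 : ℝ) ≤
        ∑ n ∈ Icc 1 x, ((r A n : ℝ) + if n ∈ Icc 1 n₀ then 1 else 0) := by
      refine sum_le_sum fun n hn => ?_
      by_cases h3 : n ∈ Icc 1 n₀
      · rw [if_pos h3]
        have : (0 : ℝ) ≤ r A n := by positivity
        linarith
      · rw [if_neg h3, add_zero]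
        have h4 : n₀ ≤ n := by
          by_contra h5
          exact h3 (mem_Icc.2 ⟨(mem_Icc.1 hn).1, by omega⟩)
        exact_mod_cast h0 n h4
    refine h2.trans ?_
    rw [sum_add_distrib]
    refine add_le_add_right ?_ _
    rw [← sum_filter, sum_const, nsmul_eq_mul, mul_one]
    have h7 : (((Icc 1 x).filter (fun n => n ∈ Icc 1 n₀)).card : ℝ) ≤ (Icc 1 n₀).card := by
      exact_mod_cast card_le_card fun n hn => (mem_filter.1 hn).2
    refine h7.trans (le_of_eq ?_)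
    rw [Nat.card_Icc, Nat.add_sub_cancel]
  rw [sum_const, nsmul_eq_mul, mul_one, Nat.card_Icc, Nat.add_sub_cancel] at h1
  have h2 : (3 : ℝ) * n₀ ≤ x := by exact_mod_cast hx
  linarith

lemma bounded_of_eventually (A : Set ℕ) (n₀ g : ℕ) (h1 : ∀ n ≥ n₀, r A n ≤ 2 * g + 1) :
    ∀ n, r A n ≤ n₀ + 2 * g + 1 := by
  intro n
  by_cases h : n₀ ≤ n
  · have := h1 n h
    omega
  · have := r_le_succ A n
    omega

theorem range_lam (g n₀ : ℕ) (A : Set ℕ) (h0 : ∀ n ≥ n₀, 1 ≤ r A n)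
    (h1 : ∀ n ≥ n₀, r A n ≤ 2 * g + 1) (lam ε : ℝ) (hε : 0 < ε) :
    ∃ N₀ : ℕ, ∀ N ≥ N₀,
      -ε ≤ (2 * g + 2 - 2 * lam - 1369 / 1260) * lmean A N + (lam ^ 2 - 4 * g) := by
  classical
  set M := n₀ + 2 * g + 1 with hMdef
  have hM : ∀ n, r A n ≤ M := bounded_of_eventually A n₀ g h1
  obtain ⟨C, hC⟩ := law M (3 * n₀) lam (ε / 2) (by positivity)
  have hC := hC A hM (basis_mean A n₀ h0)
  set κ : ℝ := 2 * g + 2 - 2 * lam - 1369 / 1260 with hκ
  set Q : ℝ := (M + |lam|) ^ 2 + |κ| * M + 4 * g + lam ^ 2 with hQ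
  have hg0 : (0 : ℝ) ≤ g := Nat.cast_nonneg g
  have hM0 : (0 : ℝ) ≤ M := Nat.cast_nonneg M
  have hQ0 : 0 ≤ Q := by positivity
  obtain ⟨C', hC'0, hC'⟩ := reduce M n₀ Q hQ0
  set G : ℕ → ℝ := fun n => κ * r A n + (lam ^ 2 - 4 * g) with hG
  have h2 := hC' A hM (fun n => ((r A n : ℝ) - lam) ^ 2 - 1369 / 1260 * (r A n : ℝ)) G
    (fun n => by
      have := F_le (lam := lam) (hM n)
      have h2 : 0 ≤ |κ| * M := by positivity
      have h3 : 0 ≤ lam ^ 2 := sq_nonneg _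
      rw [hQ]; linarith)
    (fun n => by
      simp only [hG]
      have h3 : 0 ≤ (M + |lam|) ^ 2 := by positivity
      have h4 : -(|κ| * M) ≤ κ * r A n := by
        have h5 : (r A n : ℝ) ≤ M := by exact_mod_cast hM n
        have h6 : (0 : ℝ) ≤ r A n := Nat.cast_nonneg _
        have h7 : |κ * r A n| ≤ |κ| * M := by
          rw [abs_mul, abs_of_nonneg h6]
          exact mul_le_mul_of_nonneg_left h5 (abs_nonneg _)
        linarith [neg_abs_le (κ * r A n)]
      have h5 : 0 ≤ lam ^ 2 := sq_nonneg _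
      rw [hQ]
      linarith)
    (fun n hn hn2 => by
      simp only [hG]
      obtain ⟨t, ht⟩ := r_even A n hn2
      have h3 := h0 n hn
      have h3' := h1 n hn
      have h4 : 1 ≤ t ∧ t ≤ g := by omega
      have h5 : (1 : ℝ) ≤ t := by exact_mod_cast h4.1
      have h6 : (t : ℝ) ≤ g := by exact_mod_cast h4.2
      have h7 : (r A n : ℝ) = 2 * t := by rw [ht]; push_cast; ring
      rw [h7, hκ]
      nlinarith [mul_nonneg (sub_nonneg.2 h5) (sub_nonneg.2 h6)])
  have h3 : ∀ N : ℕ, ∑ n ∈ Icc 1 N, G n / n = κ * ∑ n ∈ Icc 1 N, (r A n : ℝ) / n +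
      (lam ^ 2 - 4 * g) * ∑ n ∈ Icc 1 N, 1 / (n : ℝ) := by
    intro N
    rw [mul_sum, mul_sum, ← sum_add_distrib]
    refine sum_congr rfl fun n _ => ?_
    simp only [hG]
    ring
  set C₃ : ℝ := |C| + C' + |lam ^ 2 - 4 * g| with hC₃
  have hC₃0 : 0 ≤ C₃ := by positivity
  obtain ⟨N₀, hN₀⟩ := Filter.eventually_atTop.1
    (((Real.tendsto_log_atTop.comp tendsto_natCast_atTop_atTop).eventually_ge_atTop
      (2 * C₃ / ε + 1)).and (Filter.eventually_ge_atTop 1))
  refine ⟨N₀, fun N hN => ?_⟩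
  obtain ⟨h4, h5⟩ := hN₀ N hN
  have h4 : 2 * C₃ / ε + 1 ≤ Real.log N := h4
  have hlog : 0 < Real.log N := by
    have : 0 ≤ 2 * C₃ / ε := by positivity
    linarith
  have h6 := hC N h5
  have h7 := h2 N
  rw [h3 N] at h7
  obtain ⟨h8, h9⟩ := harm N h5
  have h10 : (lam ^ 2 - 4 * g) * ∑ n ∈ Icc 1 N, 1 / (n : ℝ) ≤
      (lam ^ 2 - 4 * g) * Real.log N + |lam ^ 2 - 4 * g| := by
    have h11 : (lam ^ 2 - 4 * g) * (∑ n ∈ Icc 1 N, 1 / (n : ℝ) - Real.log N) ≤ |lam ^ 2 - 4 * g| := by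
      calc (lam ^ 2 - 4 * g) * (∑ n ∈ Icc 1 N, 1 / (n : ℝ) - Real.log N)
          ≤ |lam ^ 2 - 4 * g| * (∑ n ∈ Icc 1 N, 1 / (n : ℝ) - Real.log N) :=
            mul_le_mul_of_nonneg_right (le_abs_self _) (by linarith)
        _ ≤ |lam ^ 2 - 4 * g| * 1 := mul_le_mul_of_nonneg_left (by linarith) (abs_nonneg _)
        _ = _ := mul_one _
    linarith
  have h11 : -(ε / 2 * Real.log N + C) ≤ κ * ∑ n ∈ Icc 1 N, (r A n : ℝ) / n +
      ((lam ^ 2 - 4 * g) * Real.log N + |lam ^ 2 - 4 * g|) + C' := by linarith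
  have h12 : C ≤ |C| := le_abs_self C
  have h13 : κ * lmean A N + (lam ^ 2 - 4 * g) =
      (κ * ∑ n ∈ Icc 1 N, (r A n : ℝ) / n + (lam ^ 2 - 4 * g) * Real.log N) / Real.log N := by
    unfold lmean
    field_simp
  rw [h13, le_div_iff₀ hlog]
  have h14 : C₃ ≤ ε / 2 * Real.log N := by
    have : 2 * C₃ / ε ≤ Real.log N := by linarith
    rw [div_le_iff₀ hε] at this
    linarith
  rw [hC₃] at h14
  linarith

lemma lmean_nonneg (A : Set ℕ) {N : ℕ} (hN : 1 ≤ N) : 0 ≤ lmean A N := by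
  unfold lmean
  refine div_nonneg (sum_nonneg fun _ _ => by positivity) (Real.log_nonneg (by exact_mod_cast hN))

theorem range (g n₀ : ℕ) (A : Set ℕ) (h0 : ∀ n ≥ n₀, 1 ≤ r A n)
    (h1 : ∀ n ≥ n₀, r A n ≤ 2 * g + 1) (ε : ℝ) (hε : 0 < ε) :
    ∃ N₀ : ℕ, ∀ N ≥ N₀,
      1369 / 1260 * lmean A N - ε ≤ (lmean A N - 2) * (2 * g - lmean A N) := by
  classical
  set M := n₀ + 2 * g + 1 with hMdef
  have hM : ∀ n, r A n ≤ M := bounded_of_eventually A n₀ g h1
  -- grid
  set η : ℝ := min 1 (ε / 2) with hη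
  have hη0 : 0 < η := lt_min one_pos (by positivity)
  set T : ℕ := ⌈((M : ℝ) + 1) / η⌉₊ + 1 with hT
  have hgrid : ∀ k : ℕ, ∃ N₀ : ℕ, ∀ N ≥ N₀, -(ε / 2) ≤
      (2 * g + 2 - 2 * (k * η) - 1369 / 1260) * lmean A N + ((k * η) ^ 2 - 4 * g) := fun k =>
    range_lam g n₀ A h0 h1 (k * η) (ε / 2) (by positivity)
  choose Nk hNk using hgrid
  obtain ⟨N₁, hN₁⟩ := Filter.eventually_atTop.1
    (((Real.tendsto_log_atTop.comp tendsto_natCast_atTop_atTop).eventually_ge_atTop
      ((M : ℝ) + 1)).and (Filter.eventually_ge_atTop 1))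
  refine ⟨max N₁ ((Finset.range (T + 1)).sup Nk), fun N hN => ?_⟩
  obtain ⟨h4, h5⟩ := hN₁ N (le_trans (le_max_left _ _) hN)
  have h4 : (M : ℝ) + 1 ≤ Real.log N := h4
  have hM0 : (0 : ℝ) ≤ M := Nat.cast_nonneg M
  have hlog : 0 < Real.log N := by linarith
  obtain ⟨_, h9⟩ := harm N h5
  have hup : lmean A N ≤ M + 1 := by
    unfold lmean
    rw [div_le_iff₀ hlog]
    calc ∑ n ∈ Icc 1 N, (r A n : ℝ) / n ≤ ∑ n ∈ Icc 1 N, M * (1 / (n : ℝ)) := by
          refine sum_le_sum fun n _ => ?_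
          rw [mul_one_div]
          exact div_le_div_of_nonneg_right (by exact_mod_cast hM n) (Nat.cast_nonneg _)
      _ = M * ∑ n ∈ Icc 1 N, 1 / (n : ℝ) := by rw [mul_sum]
      _ ≤ M * (1 + Real.log N) := mul_le_mul_of_nonneg_left h9 hM0
      _ ≤ (M + 1) * Real.log N := by linarith
  have hlow := lmean_nonneg A h5
  set μ := lmean A N with hμ
  set k := ⌊μ / η⌋₊ with hk
  have hk1 : (k : ℝ) * η ≤ μ := by
    have := Nat.floor_le (a := μ / η) (by positivity)
    rwa [le_div_iff₀ hη0] at this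
  have hk2 : μ < (k + 1 : ℝ) * η := by
    have := Nat.lt_floor_add_one (μ / η)
    rwa [div_lt_iff₀ hη0] at this
  have hkT : k ≤ T := by
    have h6 : (k : ℝ) ≤ ((M : ℝ) + 1) / η := by
      rw [le_div_iff₀ hη0]
      exact hk1.trans hup
    have h7 : (k : ℝ) ≤ ⌈((M : ℝ) + 1) / η⌉₊ := h6.trans (Nat.le_ceil _)
    have h8 : k ≤ ⌈((M : ℝ) + 1) / η⌉₊ := by exact_mod_cast h7
    omega
  have h6 := hNk k N (le_trans (le_trans (Finset.le_sup (f := Nk)
    (Finset.mem_range.2 (Nat.lt_succ_of_le hkT))) (le_max_right _ _)) hN)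
  rw [← hμ] at h6
  have h7 : (μ - k * η) ^ 2 ≤ ε / 2 := by
    have h8 : 0 ≤ μ - k * η := by linarith
    have h9 : μ - k * η ≤ η := by linarith
    have h10 : η ≤ 1 := min_le_left _ _
    have h11 : η ≤ ε / 2 := min_le_right _ _
    nlinarith
  nlinarith [h6, h7]

/-- lower bound for the increments of `arctan` -/
lemma arctan_low {x y : ℝ} (hx : 0 ≤ x) (hxy : x ≤ y) :
    (y - x) / (1 + y ^ 2) ≤ Real.arctan y - Real.arctan x := by
  have hd : ∀ t : ℝ, HasDerivAt (fun t : ℝ => Real.arctan t - (t - x) / (1 + y ^ 2))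
      (1 / (1 + t ^ 2) - 1 / (1 + y ^ 2)) t := fun t =>
    (Real.hasDerivAt_arctan t).sub (((hasDerivAt_id t).sub_const x).div_const _)
  have hmono : MonotoneOn (fun t : ℝ => Real.arctan t - (t - x) / (1 + y ^ 2)) (Set.Icc x y) := by
    apply monotoneOn_of_deriv_nonneg (convex_Icc x y)
    · exact fun t _ => (hd t).continuousAt.continuousWithinAt
    · exact fun t _ => (hd t).differentiableAt.differentiableWithinAt
    · intro t ht
      rw [interior_Icc] at ht
      rw [(hd t).deriv, sub_nonneg]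
      apply one_div_le_one_div_of_le (by positivity)
      have : t ^ 2 ≤ y ^ 2 := pow_le_pow_left₀ (by linarith [ht.1]) ht.2.le 2
      linarith
  have := hmono (Set.left_mem_Icc.2 hxy) (Set.right_mem_Icc.2 hxy) hxy
  simp only [sub_self, zero_div, sub_zero] at this
  linarith

lemma inner_up (k : ℕ) (hk : 1 ≤ k) (M : ℕ) :
    ∑ l ∈ Icc 1 M, 1 / ((k : ℝ) ^ 2 + (l : ℝ) ^ 2) ≤ 1 / (k : ℝ) * Real.arctan (M / k) := by
  have hk0 : (0 : ℝ) < k := by exact_mod_cast hk
  induction M with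
  | zero => simp
  | succ M ih =>
    rw [Finset.sum_Icc_succ_top (by omega)]
    have h1 := arctan_low (x := (M : ℝ) / k) (y := ((M + 1 : ℕ) : ℝ) / k) (by positivity) (by
      apply div_le_div_of_nonneg_right _ hk0.le
      push_cast
      linarith)
    have h2 : 1 / (k : ℝ) * ((((M + 1 : ℕ) : ℝ) / k - M / k) / (1 + (((M + 1 : ℕ) : ℝ) / k) ^ 2)) =
        1 / ((k : ℝ) ^ 2 + ((M + 1 : ℕ) : ℝ) ^ 2) := by
      push_cast
      field_simp
      ring
    have h3 := mul_le_mul_of_nonneg_left h1 (by positivity : (0 : ℝ) ≤ 1 / k)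
    rw [h2] at h3
    rw [mul_sub] at h3
    linarith

lemma double_up (K : ℕ) (hK : 1 ≤ K) : ∑ k ∈ Icc 1 K, ∑ l ∈ Icc 1 K, 1 / ((k : ℝ) ^ 2 + (l : ℝ) ^ 2) ≤
    Real.pi / 2 * (1 + Real.log K) := by
  calc ∑ k ∈ Icc 1 K, ∑ l ∈ Icc 1 K, 1 / ((k : ℝ) ^ 2 + (l : ℝ) ^ 2)
      ≤ ∑ k ∈ Icc 1 K, Real.pi / 2 * (1 / (k : ℝ)) := by
        refine sum_le_sum fun k hk => ?_
        have hk1 := (mem_Icc.1 hk).1
        have hk0 : (0 : ℝ) < k := by exact_mod_cast hk1
        refine (inner_up k hk1 K).trans ?_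
        rw [mul_comm]
        exact mul_le_mul_of_nonneg_right (Real.arctan_lt_pi_div_two _).le (by positivity)
    _ = Real.pi / 2 * ∑ k ∈ Icc 1 K, 1 / (k : ℝ) := by rw [mul_sum]
    _ ≤ Real.pi / 2 * (1 + Real.log K) :=
        mul_le_mul_of_nonneg_left (harm K hK).2 (by positivity)

/-- the sum of `1 / (a + b)` over a thin set -/
lemma thin_sum (B : Finset ℕ) (hB : ∀ a ∈ B, 1 ≤ a) (N : ℕ) (hBN : ∀ a ∈ B, a ≤ N) (C : ℝ) (hC : 0 < C)
    (D : ℕ) (hD : ∀ x : ℕ, ((B.filter (fun a => a ≤ x)).card : ℝ) ≤ C * √x + D) (S₁ : ℝ)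
    (hS₁ : ∑ a ∈ B, 1 / (a : ℝ) ≤ S₁) (hN : 1 ≤ N) (hCN : 1 ≤ C * √N) :
    ∑ a ∈ B, ∑ b ∈ B, 1 / ((a : ℝ) + b) ≤
      Real.pi * C ^ 2 / 4 * Real.log N + (Real.pi / 2 * C ^ 2 * (1 + |Real.log C|) + 2 * D * S₁) := by
  classical
  set i : ℕ → ℕ := fun a => (B.filter (fun b => b ≤ a)).card with hi
  have hmono : ∀ a ∈ B, ∀ b ∈ B, a < b → i a < i b := by
    intro a ha b hb hab
    apply Finset.card_lt_card
    rw [Finset.ssubset_iff_of_subset]
    · exact ⟨b, Finset.mem_filter.2 ⟨hb, le_rfl⟩, fun h => by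
        have := (Finset.mem_filter.1 h).2
        omega⟩
    · intro c hc
      rw [Finset.mem_filter] at hc ⊢
      exact ⟨hc.1, hc.2.trans hab.le⟩
  have hinj : Set.InjOn i B := by
    intro a ha b hb hab
    rcases lt_trichotomy a b with h | h | h
    · exact absurd hab (hmono a ha b hb h).ne
    · exact h
    · exact absurd hab (hmono b hb a ha h).ne'
  set B₀ := B.filter (fun a => i a ≤ D) with hB₀
  set B₁ := B.filter (fun a => ¬ i a ≤ D) with hB₁
  have hB₀c : (B₀.card : ℝ) ≤ D := by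
    have h1 : B₀.card ≤ (Icc 1 D).card := by
      refine Finset.card_le_card_of_injOn i ?_ (hinj.mono fun a ha => (Finset.mem_filter.1 ha).1)
      intro a ha
      have ha' := Finset.mem_filter.1 (Finset.mem_coe.1 ha)
      rw [Finset.coe_Icc, Set.mem_Icc]
      refine ⟨?_, ha'.2⟩
      have : 0 < i a := Finset.card_pos.2 ⟨a, Finset.mem_filter.2 ⟨ha'.1, le_rfl⟩⟩
      omega
    rw [Nat.card_Icc, Nat.add_sub_cancel] at h1
    exact_mod_cast h1
  have hS0 : 0 ≤ S₁ := le_trans (sum_nonneg fun _ _ => by positivity) hS₁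
  have hsplit : ∀ F : ℕ → ℝ, ∑ a ∈ B, F a = ∑ a ∈ B₀, F a + ∑ a ∈ B₁, F a := fun F =>
    (Finset.sum_filter_add_sum_filter_not B (fun a => i a ≤ D) F).symm
  have hrow : ∀ a : ℕ, ∑ b ∈ B, 1 / ((a : ℝ) + b) ≤ S₁ := by
    intro a
    refine le_trans (sum_le_sum fun b hb => ?_) hS₁
    have hb1 : (1 : ℝ) ≤ b := by exact_mod_cast hB b hb
    have ha0 : (0 : ℝ) ≤ a := Nat.cast_nonneg a
    exact one_div_le_one_div_of_le (by linarith) (by linarith)
  have hstep : ∑ a ∈ B, ∑ b ∈ B, 1 / ((a : ℝ) + b) ≤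
      ∑ a ∈ B₁, ∑ b ∈ B₁, 1 / ((a : ℝ) + b) + 2 * D * S₁ := by
    rw [hsplit]
    have e1 : ∑ a ∈ B₀, ∑ b ∈ B, 1 / ((a : ℝ) + b) ≤ D * S₁ := by
      calc ∑ a ∈ B₀, ∑ b ∈ B, 1 / ((a : ℝ) + b) ≤ ∑ a ∈ B₀, S₁ := sum_le_sum fun a _ => hrow a
        _ = B₀.card * S₁ := by rw [sum_const, nsmul_eq_mul]
        _ ≤ D * S₁ := mul_le_mul_of_nonneg_right hB₀c hS0
    have e2 : ∑ a ∈ B₁, ∑ b ∈ B, 1 / ((a : ℝ) + b) =
        ∑ a ∈ B₁, ∑ b ∈ B₀, 1 / ((a : ℝ) + b) + ∑ a ∈ B₁, ∑ b ∈ B₁, 1 / ((a : ℝ) + b) := by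
      rw [← sum_add_distrib]
      exact sum_congr rfl fun a _ => hsplit _
    have e3 : ∑ a ∈ B₁, ∑ b ∈ B₀, 1 / ((a : ℝ) + b) ≤ D * S₁ := by
      rw [sum_comm]
      calc ∑ b ∈ B₀, ∑ a ∈ B₁, 1 / ((a : ℝ) + b) ≤ ∑ b ∈ B₀, S₁ := by
            refine sum_le_sum fun b _ => ?_
            refine le_trans ?_ (hrow b)
            refine le_trans (le_of_eq (sum_congr rfl fun a _ => ?_))
              (sum_le_sum_of_subset_of_nonneg (Finset.filter_subset _ B) fun _ _ _ => by positivity)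
            rw [add_comm]
        _ = B₀.card * S₁ := by rw [sum_const, nsmul_eq_mul]
        _ ≤ D * S₁ := mul_le_mul_of_nonneg_right hB₀c hS0
    linarith
  refine hstep.trans ?_
  set k : ℕ → ℕ := fun a => i a - D with hk
  have hkmem : ∀ a ∈ B₁, 1 ≤ k a := by
    intro a ha
    have := (Finset.mem_filter.1 ha).2
    simp only [hk]
    omega
  have hkle : ∀ a ∈ B₁, (k a : ℝ) ≤ C * √a := by
    intro a ha
    have h1 := (Finset.mem_filter.1 ha).2
    have h2 : (i a : ℝ) ≤ C * √a + D := hD a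
    have h3 : (k a : ℝ) = i a - D := by
      simp only [hk]
      rw [Nat.cast_sub (by omega)]
    linarith
  have hkinj : Set.InjOn k B₁ := by
    intro a ha b hb hab
    have ha' := Finset.mem_filter.1 (Finset.mem_coe.1 ha)
    have hb' := Finset.mem_filter.1 (Finset.mem_coe.1 hb)
    apply hinj ha'.1 hb'.1
    simp only [hk] at hab
    omega
  set K := ⌊C * √N⌋₊ with hKdef
  have hK1 : 1 ≤ K := Nat.le_floor (by exact_mod_cast hCN)
  have hkK : ∀ a ∈ B₁, k a ≤ K := by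
    intro a ha
    apply Nat.le_floor
    refine (hkle a ha).trans ?_
    have : (a : ℝ) ≤ N := by exact_mod_cast hBN a (Finset.mem_filter.1 ha).1
    exact mul_le_mul_of_nonneg_left (Real.sqrt_le_sqrt this) hC.le
  have hterm : ∀ a ∈ B₁, ∀ b ∈ B₁, 1 / ((a : ℝ) + b) ≤ C ^ 2 * (1 / ((k a : ℝ) ^ 2 + (k b : ℝ) ^ 2)) := by
    intro a ha b hb
    have hsq : ∀ c ∈ B₁, (k c : ℝ) ^ 2 ≤ C ^ 2 * c := by
      intro c hc
      calc (k c : ℝ) ^ 2 ≤ (C * √c) ^ 2 := pow_le_pow_left₀ (Nat.cast_nonneg _) (hkle c hc) 2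
        _ = C ^ 2 * c := by rw [mul_pow, Real.sq_sqrt (Nat.cast_nonneg _)]
    have h1 := hsq a ha
    have h2 := hsq b hb
    have h3 : (1 : ℝ) ≤ k a := by exact_mod_cast hkmem a ha
    have h4 : (1 : ℝ) ≤ k b := by exact_mod_cast hkmem b hb
    have h5 : (0 : ℝ) < (k a : ℝ) ^ 2 + (k b : ℝ) ^ 2 := by positivity
    have h6 : (0 : ℝ) < (a : ℝ) + b := by
      have : (1 : ℝ) ≤ a := by exact_mod_cast hB a (Finset.mem_filter.1 ha).1
      have : (0 : ℝ) ≤ b := Nat.cast_nonneg _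
      linarith
    rw [mul_one_div, div_le_div_iff₀ h6 h5]
    linarith
  have hmain : ∑ a ∈ B₁, ∑ b ∈ B₁, 1 / ((a : ℝ) + b) ≤
      C ^ 2 * ∑ x ∈ Icc 1 K, ∑ y ∈ Icc 1 K, 1 / ((x : ℝ) ^ 2 + (y : ℝ) ^ 2) := by
    have himg : B₁.image k ⊆ Icc 1 K := by
      intro x hx
      obtain ⟨a, ha, rfl⟩ := Finset.mem_image.1 hx
      exact mem_Icc.2 ⟨hkmem a ha, hkK a ha⟩
    calc ∑ a ∈ B₁, ∑ b ∈ B₁, 1 / ((a : ℝ) + b)
        ≤ ∑ a ∈ B₁, ∑ b ∈ B₁, C ^ 2 * (1 / ((k a : ℝ) ^ 2 + (k b : ℝ) ^ 2)) :=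
          sum_le_sum fun a ha => sum_le_sum fun b hb => hterm a ha b hb
      _ = ∑ x ∈ B₁.image k, ∑ y ∈ B₁.image k, C ^ 2 * (1 / ((x : ℝ) ^ 2 + (y : ℝ) ^ 2)) := by
          rw [sum_image hkinj]
          refine sum_congr rfl fun a _ => ?_
          rw [sum_image hkinj]
      _ ≤ ∑ x ∈ Icc 1 K, ∑ y ∈ Icc 1 K, C ^ 2 * (1 / ((x : ℝ) ^ 2 + (y : ℝ) ^ 2)) := by
          refine (sum_le_sum fun x _ => sum_le_sum_of_subset_of_nonneg himg
            fun _ _ _ => by positivity).trans ?_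
          exact sum_le_sum_of_subset_of_nonneg himg
            fun _ _ _ => sum_nonneg fun _ _ => by positivity
      _ = _ := by
          rw [mul_sum]
          refine sum_congr rfl fun x _ => ?_
          rw [mul_sum]
  have hlogK : Real.log K ≤ |Real.log C| + 1 / 2 * Real.log N := by
    have hN0 : (0 : ℝ) < N := by exact_mod_cast hN
    have hK0 : (0 : ℝ) < K := by exact_mod_cast hK1
    calc Real.log K ≤ Real.log (C * √N) := Real.log_le_log hK0 (Nat.floor_le (by positivity))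
      _ = Real.log C + 1 / 2 * Real.log N := by
          rw [Real.log_mul hC.ne' (by positivity), Real.log_sqrt hN0.le]
          ring
      _ ≤ _ := by linarith [le_abs_self (Real.log C)]
  have h7 := double_up K hK1
  have h8 : C ^ 2 * ∑ x ∈ Icc 1 K, ∑ y ∈ Icc 1 K, 1 / ((x : ℝ) ^ 2 + (y : ℝ) ^ 2) ≤
      C ^ 2 * (Real.pi / 2 * (1 + (|Real.log C| + 1 / 2 * Real.log N))) := by
    refine mul_le_mul_of_nonneg_left (h7.trans ?_) (by positivity)
    exact mul_le_mul_of_nonneg_left (by linarith) (by positivity)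
  have h9 : C ^ 2 * (Real.pi / 2 * (1 + (|Real.log C| + 1 / 2 * Real.log N))) =
      Real.pi * C ^ 2 / 4 * Real.log N + Real.pi / 2 * C ^ 2 * (1 + |Real.log C|) := by ring
  linarith

/-- the sum of the reciprocals of a thin set -/
lemma thin_recip (B : Finset ℕ) (hB : ∀ a ∈ B, 1 ≤ a) (C : ℝ) (hC : 0 < C)
    (D : ℕ) (hD : ∀ x : ℕ, ((B.filter (fun a => a ≤ x)).card : ℝ) ≤ C * √x + D) :
    ∑ a ∈ B, 1 / (a : ℝ) ≤ D + 2 * C ^ 2 := by
  classical
  set i : ℕ → ℕ := fun a => (B.filter (fun b => b ≤ a)).card with hi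
  have hmono : ∀ a ∈ B, ∀ b ∈ B, a < b → i a < i b := by
    intro a ha b hb hab
    apply Finset.card_lt_card
    rw [Finset.ssubset_iff_of_subset]
    · exact ⟨b, Finset.mem_filter.2 ⟨hb, le_rfl⟩, fun h => by
        have := (Finset.mem_filter.1 h).2
        omega⟩
    · intro c hc
      rw [Finset.mem_filter] at hc ⊢
      exact ⟨hc.1, hc.2.trans hab.le⟩
  have hinj : Set.InjOn i B := by
    intro a ha b hb hab
    rcases lt_trichotomy a b with h | h | h
    · exact absurd hab (hmono a ha b hb h).ne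
    · exact h
    · exact absurd hab (hmono b hb a ha h).ne'
  set B₀ := B.filter (fun a => i a ≤ D) with hB₀
  set B₁ := B.filter (fun a => ¬ i a ≤ D) with hB₁
  have hB₀c : (B₀.card : ℝ) ≤ D := by
    have h1 : B₀.card ≤ (Icc 1 D).card := by
      refine Finset.card_le_card_of_injOn i ?_ (hinj.mono fun a ha => (Finset.mem_filter.1 ha).1)
      intro a ha
      have ha' := Finset.mem_filter.1 (Finset.mem_coe.1 ha)
      rw [Finset.coe_Icc, Set.mem_Icc]
      refine ⟨?_, ha'.2⟩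
      have : 0 < i a := Finset.card_pos.2 ⟨a, Finset.mem_filter.2 ⟨ha'.1, le_rfl⟩⟩
      omega
    rw [Nat.card_Icc, Nat.add_sub_cancel] at h1
    exact_mod_cast h1
  rw [← Finset.sum_filter_add_sum_filter_not B (fun a => i a ≤ D) (fun a => 1 / (a : ℝ)), ← hB₀, ← hB₁]
  refine add_le_add ?_ ?_
  · calc ∑ a ∈ B₀, 1 / (a : ℝ) ≤ ∑ a ∈ B₀, (1 : ℝ) := by
          refine sum_le_sum fun a ha => ?_
          have : (1 : ℝ) ≤ a := by exact_mod_cast hB a (Finset.mem_filter.1 ha).1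
          rw [div_le_one (by linarith)]
          exact this
      _ = B₀.card := by simp
      _ ≤ D := hB₀c
  · set k : ℕ → ℕ := fun a => i a - D with hk
    have hkmem : ∀ a ∈ B₁, 1 ≤ k a := by
      intro a ha
      have := (Finset.mem_filter.1 ha).2
      simp only [hk]
      omega
    have hkinj : Set.InjOn k B₁ := by
      intro a ha b hb hab
      have ha' := Finset.mem_filter.1 (Finset.mem_coe.1 ha)
      have hb' := Finset.mem_filter.1 (Finset.mem_coe.1 hb)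
      apply hinj ha'.1 hb'.1
      simp only [hk] at hab
      omega
    have hsq : ∀ c ∈ B₁, (k c : ℝ) ^ 2 ≤ C ^ 2 * c := by
      intro c hc
      have h1 := (Finset.mem_filter.1 hc).2
      have h2 : (i c : ℝ) ≤ C * √c + D := hD c
      have h3 : (k c : ℝ) = i c - D := by
        simp only [hk]
        rw [Nat.cast_sub (by omega)]
      calc (k c : ℝ) ^ 2 ≤ (C * √c) ^ 2 := pow_le_pow_left₀ (Nat.cast_nonneg _) (by linarith) 2
        _ = C ^ 2 * c := by rw [mul_pow, Real.sq_sqrt (Nat.cast_nonneg _)]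
    calc ∑ a ∈ B₁, 1 / (a : ℝ) ≤ ∑ a ∈ B₁, C ^ 2 * ((k a : ℝ) ^ 2)⁻¹ := by
          refine sum_le_sum fun a ha => ?_
          have h1 := hsq a ha
          have h3 : (1 : ℝ) ≤ k a := by exact_mod_cast hkmem a ha
          have h4 : (1 : ℝ) ≤ a := by exact_mod_cast hB a (Finset.mem_filter.1 ha).1
          have h5 : (0 : ℝ) < (k a : ℝ) ^ 2 := by positivity
          rw [← div_eq_mul_inv, div_le_div_iff₀ (by linarith) h5]
          linarith
      _ = C ^ 2 * ∑ x ∈ B₁.image k, ((x : ℝ) ^ 2)⁻¹ := by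
          rw [sum_image hkinj, mul_sum]
      _ ≤ C ^ 2 * 2 := by
          refine mul_le_mul_of_nonneg_left ?_ (by positivity)
          have himg : B₁.image k ⊆ Ioo 0 ((B₁.image k).sup id + 1) := by
            intro x hx
            obtain ⟨a, ha, rfl⟩ := Finset.mem_image.1 hx
            rw [mem_Ioo]
            have := Finset.le_sup (f := id) hx
            simp only [id] at this
            exact ⟨hkmem a ha, by omega⟩
          refine (sum_le_sum_of_subset_of_nonneg himg fun _ _ _ => by positivity).trans ?_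
          have := sum_Ioo_inv_sq_le (α := ℝ) 0 ((B₁.image k).sup id + 1)
          simpa using this
      _ = 2 * C ^ 2 := by ring

/-- the logarithmic mean of a thin set -/
theorem thin_mean (A : Set ℕ) (C : ℝ) (hC : 0 < C) (x₀ : ℕ)
    (h : ∀ x ≥ x₀, ((cut A x).card : ℝ) ≤ C * √x) (η : ℝ) (hη : 0 < η) :
    ∃ N₀ : ℕ, ∀ N ≥ N₀, lmean A N ≤ Real.pi * C ^ 2 / 4 + η := by
  classical
  set C1 : ℝ := x₀ + 2 * C ^ 2 with hC1
  have hC10 : 0 ≤ C1 := by positivity
  set D' : ℝ := Real.pi / 2 * C ^ 2 * (1 + |Real.log C|) + 2 * x₀ * C1 + 2 * C1 with hD'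
  have hD'0 : 0 ≤ D' := by positivity
  have hlim := (Real.tendsto_log_atTop.comp tendsto_natCast_atTop_atTop).eventually_ge_atTop
      (D' / η + 1)
  have hlim2 : ∀ᶠ N : ℕ in Filter.atTop, 1 ≤ C * √(N : ℝ) :=
    ((Real.tendsto_sqrt_atTop.comp tendsto_natCast_atTop_atTop).const_mul_atTop hC).eventually_ge_atTop 1
  obtain ⟨N₀, hN₀⟩ := Filter.eventually_atTop.1
    ((hlim.and hlim2).and (Filter.eventually_ge_atTop 1))
  refine ⟨N₀, fun N hN => ?_⟩
  obtain ⟨⟨h1, h2⟩, h3⟩ := hN₀ N hN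
  have h1 : D' / η + 1 ≤ Real.log N := h1
  have hlog : 0 < Real.log N := by
    have : 0 ≤ D' / η := by positivity
    linarith
  set B := cut A N with hB
  have hDB : ∀ x : ℕ, ((B.filter (fun a => a ≤ x)).card : ℝ) ≤ C * √x + x₀ := (fun x => by
      by_cases hx : x₀ ≤ x
      · have h4 : (B.filter (fun a => a ≤ x)).card ≤ (cut A x).card :=
          card_le_card fun a ha => by
            rw [mem_filter] at ha
            have := mem_cut.1 ha.1
            exact mem_cut.2 ⟨⟨this.1.1, ha.2⟩, this.2⟩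
        have h5 : ((B.filter (fun a => a ≤ x)).card : ℝ) ≤ (cut A x).card := by exact_mod_cast h4
        have h6 : (0 : ℝ) ≤ x₀ := Nat.cast_nonneg _
        linarith [h x hx]
      · have h4 : (B.filter (fun a => a ≤ x)).card ≤ (Icc 1 x).card :=
          card_le_card fun a ha => by
            rw [mem_filter] at ha
            exact mem_Icc.2 ⟨(mem_cut.1 ha.1).1.1, ha.2⟩
        rw [Nat.card_Icc, Nat.add_sub_cancel] at h4
        have h5 : ((B.filter (fun a => a ≤ x)).card : ℝ) ≤ x₀ := by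
          exact_mod_cast h4.trans (by omega)
        have h6 : 0 ≤ C * √(x : ℝ) := by positivity
        linarith)
  have hSB : ∑ a ∈ B, 1 / (a : ℝ) ≤ C1 := thin_recip B (fun a ha => (mem_cut.1 ha).1.1) C hC x₀ hDB
  have hthin := thin_sum B (fun a ha => (mem_cut.1 ha).1.1) N (fun a ha => (mem_cut.1 ha).1.2) C hC x₀
    hDB C1 hSB h3 h2
  have hr : ∑ n ∈ Icc 1 N, (r A n : ℝ) / n ≤ ∑ a ∈ B, ∑ b ∈ B, 1 / ((a : ℝ) + b) + 2 * C1 := by
    calc ∑ n ∈ Icc 1 N, (r A n : ℝ) / n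
        ≤ ∑ n ∈ Icc 1 N, ((rep B n : ℝ) / n + (if n ∈ B then 2 / (n : ℝ) else 0)) := by
          refine sum_le_sum fun n hn => ?_
          obtain ⟨hn1, hnN⟩ := mem_Icc.1 hn
          have h4 := r_le_rep A N n hn1 hnN
          have h5 : (r A n : ℝ) ≤ rep B n + (if n ∈ B then 2 else 0) := by
            have : (r A n : ℝ) ≤ ((rep B n + (if n ∈ B then 2 else 0) : ℕ) : ℝ) := by
              exact_mod_cast h4
            push_cast at this
            exact this
          have hn0 : (0 : ℝ) < n := by exact_mod_cast hn1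
          calc (r A n : ℝ) / n ≤ (rep B n + (if n ∈ B then 2 else 0)) / n :=
                div_le_div_of_nonneg_right h5 hn0.le
            _ = _ := by
                split_ifs <;> ring
      _ = ∑ n ∈ Icc 1 N, (rep B n : ℝ) / n + ∑ n ∈ Icc 1 N, (if n ∈ B then 2 / (n : ℝ) else 0) :=
          sum_add_distrib
      _ ≤ ∑ a ∈ B, ∑ b ∈ B, 1 / ((a : ℝ) + b) + 2 * C1 := by
          refine add_le_add ?_ ?_
          · have e1 : ∀ n ∈ Icc 1 N, (rep B n : ℝ) / n =
                ∑ p ∈ B ×ˢ B with p.1 + p.2 = n, 1 / ((p.1 : ℝ) + p.2) := by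
              intro n _
              have : ∀ p ∈ (B ×ˢ B).filter (fun p => p.1 + p.2 = n),
                  1 / ((p.1 : ℝ) + p.2) = 1 / (n : ℝ) := by
                intro p hp
                have := (mem_filter.1 hp).2
                rw [← this]
                push_cast
                rfl
              rw [sum_congr rfl this, sum_const, nsmul_eq_mul, mul_one_div]
              rfl
            rw [sum_congr rfl e1, ← sum_product']
            refine le_trans (le_of_eq (?_ : _ = ∑ p ∈ (B ×ˢ B).filter (fun p => p.1 + p.2 ∈ Icc 1 N),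
              1 / ((p.1 : ℝ) + p.2))) (sum_le_sum_of_subset_of_nonneg (filter_subset _ _)
                fun _ _ _ => by positivity)
            rw [← sum_fiberwise_of_maps_to (s := (B ×ˢ B).filter (fun p => p.1 + p.2 ∈ Icc 1 N))
              (t := Icc 1 N) (g := fun p => p.1 + p.2) (fun p hp => (mem_filter.1 hp).2)]
            refine sum_congr rfl fun n hn => ?_
            refine sum_congr ?_ fun _ _ => rfl
            ext p
            simp only [mem_filter]
            constructor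
            · rintro ⟨h4, h5⟩
              exact ⟨⟨h4, by rw [h5]; exact hn⟩, h5⟩
            · rintro ⟨⟨h4, _⟩, h5⟩
              exact ⟨h4, h5⟩
          · rw [← sum_filter]
            calc ∑ n ∈ (Icc 1 N).filter (fun n => n ∈ B), 2 / (n : ℝ) ≤ ∑ n ∈ B, 2 / (n : ℝ) :=
                  sum_le_sum_of_subset_of_nonneg (fun n hn => (mem_filter.mp hn).2)
                    fun _ _ _ => by positivity
              _ = 2 * ∑ n ∈ B, 1 / (n : ℝ) := by
                  rw [mul_sum]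
                  exact sum_congr rfl fun n _ => by ring
              _ ≤ 2 * C1 := by linarith
  unfold lmean
  rw [div_le_iff₀ hlog]
  have h4 : D' ≤ η * Real.log N := by
    have : D' / η ≤ Real.log N := by linarith
    rw [div_le_iff₀ hη] at this
    linarith
  rw [hD'] at h4
  linarith

/-- the logarithmic mean of a thin basis is at least `2` -/
theorem basis_lmean (A : Set ℕ) (n₀ : ℕ) (h0 : ∀ n ≥ n₀, 1 ≤ r A n) (C : ℝ) (hC : 0 < C) (x₀ : ℕ)
    (h : ∀ x ≥ x₀, ((cut A x).card : ℝ) ≤ C * √x) (η : ℝ) (hη : 0 < η) :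
    ∃ N₀ : ℕ, ∀ N ≥ N₀, 2 - η ≤ lmean A N := by
  classical
  set D' : ℝ := 2 * n₀ + 2 * (x₀ + 2 * C ^ 2) with hD'
  have hD'0 : 0 ≤ D' := by positivity
  obtain ⟨N₀, hN₀⟩ := Filter.eventually_atTop.1
    (((Real.tendsto_log_atTop.comp tendsto_natCast_atTop_atTop).eventually_ge_atTop
      (D' / η + 1)).and (Filter.eventually_ge_atTop 1))
  refine ⟨N₀, fun N hN => ?_⟩
  obtain ⟨h1, h3⟩ := hN₀ N hN
  have h1 : D' / η + 1 ≤ Real.log N := h1
  have hlog : 0 < Real.log N := by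
    have : 0 ≤ D' / η := by positivity
    linarith
  set B := cut A N with hB
  have hSB : ∑ a ∈ B, 1 / (a : ℝ) ≤ x₀ + 2 * C ^ 2 := by
    refine thin_recip B (fun a ha => (mem_cut.1 ha).1.1) C hC x₀ fun x => ?_
    by_cases hx : x₀ ≤ x
    · have h4 : (B.filter (fun a => a ≤ x)).card ≤ (cut A x).card :=
        card_le_card fun a ha => by
          rw [mem_filter] at ha
          have := mem_cut.1 ha.1
          exact mem_cut.2 ⟨⟨this.1.1, ha.2⟩, this.2⟩
      have h5 : ((B.filter (fun a => a ≤ x)).card : ℝ) ≤ (cut A x).card := by exact_mod_cast h4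
      have h6 : (0 : ℝ) ≤ x₀ := Nat.cast_nonneg _
      linarith [h x hx]
    · have h4 : (B.filter (fun a => a ≤ x)).card ≤ (Icc 1 x).card :=
        card_le_card fun a ha => by
          rw [mem_filter] at ha
          exact mem_Icc.2 ⟨(mem_cut.1 ha.1).1.1, ha.2⟩
      rw [Nat.card_Icc, Nat.add_sub_cancel] at h4
      have h5 : ((B.filter (fun a => a ≤ x)).card : ℝ) ≤ x₀ := by
        exact_mod_cast h4.trans (by omega)
      have h6 : 0 ≤ C * √(x : ℝ) := by positivity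
      linarith
  set I2 : Finset ℕ := B.image (fun a => 2 * a) with hI2
  have key : ∀ n ∈ Icc 1 N, 2 * (1 / (n : ℝ)) ≤ (r A n : ℝ) / n +
      ((if n ∈ Icc 1 n₀ then 2 / (n : ℝ) else 0) + (if n ∈ I2 then 2 / (n : ℝ) else 0)) := by
    intro n hn
    obtain ⟨hn1, hnN⟩ := mem_Icc.1 hn
    have hn0 : (0 : ℝ) < n := by exact_mod_cast hn1
    have e0 : 0 ≤ (r A n : ℝ) / n := by positivity
    have e1 : 2 * (1 / (n : ℝ)) = 2 / n := by ring
    have e2 : (0 : ℝ) ≤ 2 / (n : ℝ) := by positivity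
    rw [e1]
    by_cases c1 : n ∈ Icc 1 n₀
    · rw [if_pos c1]
      split_ifs <;> linarith
    · by_cases c2 : n ∈ I2
      · rw [if_pos c2, if_neg c1]
        linarith
      · rw [if_neg c1, if_neg c2, add_zero, add_zero]
        refine div_le_div_of_nonneg_right ?_ hn0.le
        have hge : n₀ ≤ n := by
          by_contra h
          exact c1 (mem_Icc.2 ⟨hn1, by omega⟩)
        obtain ⟨t, ht⟩ := r_even A n (fun a ha he => by
          apply c2
          exact mem_image.2 ⟨a, mem_cut.2 ⟨⟨by omega, by omega⟩, ha⟩, he.symm⟩)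
        have h5 := h0 n hge
        have h6 : 2 ≤ r A n := by omega
        exact_mod_cast h6
  have hs := sum_le_sum key
  rw [← mul_sum, sum_add_distrib, sum_add_distrib] at hs
  have s1 : ∑ n ∈ Icc 1 N, (if n ∈ Icc 1 n₀ then 2 / (n : ℝ) else 0) ≤ 2 * n₀ := by
    rw [← sum_filter]
    calc ∑ n ∈ (Icc 1 N).filter (fun n => n ∈ Icc 1 n₀), 2 / (n : ℝ)
        ≤ ∑ n ∈ Icc 1 n₀, 2 / (n : ℝ) :=
          sum_le_sum_of_subset_of_nonneg (fun n hn => (mem_filter.mp hn).2)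
            fun _ _ _ => by positivity
      _ ≤ ∑ _n ∈ Icc 1 n₀, (2 : ℝ) := by
          refine sum_le_sum fun n hn => ?_
          have : (1 : ℝ) ≤ n := by exact_mod_cast (mem_Icc.1 hn).1
          exact div_le_self (by norm_num) this
      _ = 2 * n₀ := by
          rw [sum_const, Nat.card_Icc, nsmul_eq_mul, Nat.add_sub_cancel]
          ring
  have s2 : ∑ n ∈ Icc 1 N, (if n ∈ I2 then 2 / (n : ℝ) else 0) ≤ 2 * (x₀ + 2 * C ^ 2) := by
    rw [← sum_filter]
    calc ∑ n ∈ (Icc 1 N).filter (fun n => n ∈ I2), 2 / (n : ℝ)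
        ≤ ∑ n ∈ I2, 2 / (n : ℝ) :=
          sum_le_sum_of_subset_of_nonneg (fun n hn => (mem_filter.mp hn).2)
            fun _ _ _ => by positivity
      _ = ∑ a ∈ B, 2 / ((2 * a : ℕ) : ℝ) := by
          rw [hI2]
          exact sum_image fun a _ b _ h => by simpa using h
      _ ≤ ∑ a ∈ B, 2 * (1 / (a : ℝ)) := by
          refine sum_le_sum fun a ha => ?_
          have h1 := (mem_cut.mp ha).1.1
          have h2 : (0 : ℝ) < a := by exact_mod_cast h1
          rw [mul_one_div]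
          apply div_le_div_of_nonneg_left (by norm_num) h2
          push_cast
          linarith
      _ = 2 * ∑ a ∈ B, 1 / (a : ℝ) := by rw [mul_sum]
      _ ≤ 2 * (x₀ + 2 * C ^ 2) := by linarith
  have h4 := (harm N h3).1
  unfold lmean
  rw [le_div_iff₀ hlog]
  have h5 : D' ≤ η * Real.log N := by
    have : D' / η ≤ Real.log N := by linarith
    rw [div_le_iff₀ hη] at this
    linarith
  rw [hD'] at h5
  linarith

end Pool.Agent.H189.Q
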